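import Pool.Agent.K6.H80.CD.Fin
import Pool.Agent.K6.H80.LV.Multi

/-!
Finiteness of the points at which the values of the polynomials are algebraic over the field of the
coordinates: only some of the coefficients are generic.
-/

set_option autoImplicit false
set_option linter.unusedSectionVars false

open MvPolynomial Pool.Agent.TH145.GH

namespace Pool.Agent.K6.H80.CD

open Pool.Agent.K6.H80.LV (mn sM St pw up px px_apply sum_px OK Ti Ix sc fac mn_step sM_zero pw_mem
  mn_pw up_le Vert sM_up_mem det_blk bp num DimB nv map_mn finite_st finite_ix mn_mk der_coeff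
  exists_fn alg_descend exists_setup)

variable {σ S A X Z : Type} [Fintype σ] [Fintype S] [Fintype Z] {β : σ → S} {c : S → σ}
  {dg : A → S → ℕ}

open scoped Classical in
/-- The functionals. -/
theorem exists_Fn {k0 L : Type} [Field k0] [Field L] [Algebra k0 L] [CharZero L]
    (hc : ∀ s, β (c s) = s) {x : σ → L} (hx : ∀ s, x (c s) = 1) {J : A → Type}
    [∀ a, Fintype (J a)] (P : ∀ a, J a → MvPolynomial σ k0) (cf : ∀ a, J a → L)
    (za : Z → A) (R : Z → MvPolynomial σ k0) (r : Z → L)
    {F : A → MvPolynomial σ L} (hF : ∀ a, F a = ∑ j, C (cf a j) * map (algebraMap k0 L) (P a j) +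
      ∑ q, if za q = a then C (r q) * map (algebraMap k0 L) (R q) else 0)
    {D : A → (σ →₀ ℕ) → Derivation ℤ L L} (hDk : ∀ a I (r : k0), D a I (algebraMap k0 L r) = 0)
    {ζ : A → (σ →₀ ℕ) → Z → L}
    (hD : ∀ a b, ∀ I ∈ St β c (dg b), ∑ j, D b I (cf a j) * aeval x (P a j) +
      ∑ q, (if za q = a then (D b I (r q) - ζ b I q) * aeval x (R q) else 0) =
      if a = b then mn x I else 0)
    {E : X → Derivation ℤ L L} (hEk : ∀ ξ (r : k0), E ξ (algebraMap k0 L r) = 0)
    (hE : ∀ ξ b j, E ξ (cf b j) = 0) (hEr : ∀ ξ q, E ξ (r q) = 0)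
    (halg : ∀ a, IsAlgebraic (IntermediateField.adjoin k0 (Set.range x)) (eval x (F a))) :
    ∃ φ : A → σ ⊕ Z → L, Fn β c dg D ζ E x φ := by
  choose φ hφ1 hφ2 using fun a => exists_fn (k0 := k0) hc hx (F a) (halg a)
  obtain ⟨ψ, hψ⟩ : ∃ ψ : A → σ ⊕ Z → L, ∀ a, ψ a = Sum.elim (φ a)
    (fun q => if za q = a then aeval x (R q) else 0) := ⟨_, fun _ => rfl⟩
  have hsum : ∀ a (v : σ → L) (w : Z → L), ∑ l, ψ a l * Sum.elim v w l =
      ∑ l, φ a l * v l + ∑ q, (if za q = a then aeval x (R q) else 0) * w q := by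
    intro a v w
    rw [Fintype.sum_sum_type, hψ]
    rfl
  have hder : ∀ a (δ : Derivation ℤ L L), (∀ r : k0, δ (algebraMap k0 L r) = 0) →
      ∑ l, φ a l * δ (x l) = - (∑ j, δ (cf a j) * aeval x (P a j) +
        ∑ q, if za q = a then δ (r q) * aeval x (R q) else 0) := by
    intro a δ hδ
    rw [hφ2 a δ hδ, der_coeff (J := J a ⊕ Z) (Sum.elim (P a) R)
      (Sum.elim (cf a) fun q => if za q = a then r q else 0) δ hδ x (F := F a) (by
        rw [hF, Fintype.sum_sum_type]
        congr 1
        refine Finset.sum_congr rfl fun q _ => ?_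
        simp only [Sum.elim_inr]
        split_ifs
        · rfl
        · rw [map_zero, zero_mul]), Fintype.sum_sum_type]
    congr 2
    refine Finset.sum_congr rfl fun q _ => ?_
    simp only [Sum.elim_inr]
    split_ifs
    · rfl
    · rw [map_zero, zero_mul]
  have hmain : ∀ a b, ∀ I ∈ St β c (dg b), ∑ l, ψ a l * Ev D ζ x b I l =
      - if a = b then mn x I else 0 := by
    intro a b I hI
    rw [← hD a b I hI, Ev, hsum, hder a (D b I) (hDk b I)]
    have h1 : ∑ q, (if za q = a then aeval x (R q) else 0) * ζ b I q =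
        ∑ q, (if za q = a then D b I (r q) * aeval x (R q) else 0) -
          ∑ q, (if za q = a then (D b I (r q) - ζ b I q) * aeval x (R q) else 0) := by
      rw [← Finset.sum_sub_distrib]
      refine Finset.sum_congr rfl fun q _ => ?_
      split_ifs
      · ring
      · ring
    rw [h1]
    ring
  refine ⟨ψ, fun a s => ?_, fun a ξ => ?_, fun a b I hI hab => ?_, fun a I hI => ?_⟩
  · rw [ps, hsum, hφ1]
    simp only [Pi.zero_apply, mul_zero, Finset.sum_const_zero, add_zero]
  · rw [ev, hsum, hder a (E ξ) (hEk ξ)]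
    simp only [Pi.zero_apply, mul_zero, Finset.sum_const_zero, add_zero, hE, hEr, zero_mul,
      ite_self, neg_zero]
  · rw [hmain a b I hI, if_neg hab, neg_zero]
  · rw [hmain a a I hI, if_pos rfl]

open scoped Classical in
/-- Finiteness of the points at which the values of the polynomials are algebraic over the
field of the coordinates. -/
theorem fin_points {k0 K : Type} [Field k0] [Field K] [Algebra k0 K] [IsAlgClosed K]
    [CharZero K] [IsAlgClosed k0] [Fintype A] {m : ℕ} {μ : S → ℕ} (hc : ∀ s, β (c s) = s)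
    (hd : ∀ s, μ s + (m + Fintype.card Z) + 2 ≤ ∑ a, (dg a s + 1))
    (V : Set (MvPolynomial σ k0)) (hV : DimB k0 β V m μ)
    {J : A → Type} [∀ a, Fintype (J a)] (P : ∀ a, J a → MvPolynomial σ k0)
    (hSt : ∀ a, ∀ I ∈ St β c (dg a), ∃ j, P a j = monomial I 1)
    {cf : ∀ a, J a → K} (za : Z → A) (R : Z → MvPolynomial σ k0) (r : Z → K)
    {F : A → MvPolynomial σ K}
    (hF : ∀ a, F a = ∑ j, C (cf a j) * map (algebraMap k0 K) (P a j) +
      ∑ q, if za q = a then C (r q) * map (algebraMap k0 K) (R q) else 0)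
    (hind : AlgebraicIndependent k0 fun p : (Σ a, J a) => cf p.1 p.2)
    (T : Finset K) :
    {x : σ → K | (∀ j, x j ∈ IntermediateField.adjoin k0 (T : Set K)) ∧ (∀ s, x (c s) = 1) ∧
      (∀ f ∈ V, aeval x f = 0) ∧
      ∀ a, IsAlgebraic (IntermediateField.adjoin k0 (Set.range x)) (eval x (F a))}.Finite := by
  obtain ⟨B, hB, K1, y, s, hK1, hy, hys, hs, hTK⟩ := exists_closed hind (T ∪ Finset.univ.image r)
  have hcz : CharZero K1 := by
    constructor
    intro a b hab
    have h1 := congrArg (algebraMap K1 K) hab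
    rw [map_natCast, map_natCast] at h1
    exact Nat.cast_injective h1
  have : Finite B := hB
  choose js hjs using hSt
  have hrK : ∀ q, r q ∈ K1 := fun q => hTK _ (Finset.mem_union_right _
    (Finset.mem_image_of_mem _ (Finset.mem_univ q)))
  obtain ⟨r1, hr1⟩ : ∃ r1 : Z → K1, ∀ q, (r1 q : K) = r q := ⟨fun q => ⟨r q, hrK q⟩, fun _ => rfl⟩
  obtain ⟨F0, hF0'⟩ : ∃ F0 : A → MvPolynomial σ K1, ∀ a, F0 a =
      ∑ j, C (y (s ⟨a, j⟩)) * map (algebraMap k0 K1) (P a j) +
      ∑ q, if za q = a then C (r1 q) * map (algebraMap k0 K1) (R q) else 0 := ⟨_, fun _ => rfl⟩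
  have hF0 : ∀ a, map (algebraMap K1 K) (F0 a) = F a := by
    intro a
    rw [hF0', hF, map_add, map_sum, map_sum]
    congr 1
    · refine Finset.sum_congr rfl fun j _ => ?_
      have hyj : algebraMap K1 K (y (s ⟨a, j⟩)) = cf a j := hys ⟨a, j⟩
      rw [map_mul, map_C, hyj, map_map]
      rfl
    · refine Finset.sum_congr rfl fun q _ => ?_
      split_ifs
      · have hyj : algebraMap K1 K (r1 q) = r q := hr1 q
        rw [map_mul, map_C, hyj, map_map]
        rfl
      · rw [map_zero]
  obtain ⟨T1, hT1⟩ : ∃ T1 : Finset K1, ∀ t ∈ T ∪ Finset.univ.image r, ∃ t1 ∈ T1, (t1 : K) = t :=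
    ⟨(T ∪ Finset.univ.image r).preimage (fun x : K1 => (x : K)) Subtype.val_injective.injOn,
      fun t ht => ⟨⟨t, hTK t ht⟩, Finset.mem_preimage.2 ht, rfl⟩⟩
  obtain ⟨E, D, h1, h2, h3, h4, h5, h6, h7, h7', h8⟩ := exists_setup (β := β) (c := c) (dg := dg) hy js
    (cf := fun a j => y (s ⟨a, j⟩)) s hs (fun p => rfl) T1
  have hEK : ∀ t ∈ IntermediateField.adjoin k0 (T : Set K), ∃ e : K1, e ∈ E ∧ (e : K) = t := by
    intro t ht
    have h9 : t ∈ Subfield.closure (Set.range (algebraMap k0 K) ∪ (T : Set K)) := by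
      rw [← IntermediateField.adjoin_toSubfield]
      exact ht
    have h10 : Subfield.closure (Set.range (algebraMap k0 K) ∪ (T : Set K)) ≤
        E.toSubfield.map (algebraMap K1 K) := by
      rw [Subfield.closure_le]
      rintro z (⟨r, rfl⟩ | hz)
      · exact ⟨algebraMap k0 K1 r, E.algebraMap_mem (algebraMap k0 _ r), rfl⟩
      · obtain ⟨t1, ht1, htz⟩ := hT1 z (Finset.mem_union_left _ hz)
        exact ⟨t1, h8 t1 ht1, htz⟩
    obtain ⟨e, he, het⟩ := h10 h9
    exact ⟨e, he, het⟩
  have hrE : ∀ q, r1 q ∈ E := by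
    intro q
    obtain ⟨t1, ht1, htz⟩ := hT1 (r q) (Finset.mem_union_right _
      (Finset.mem_image_of_mem _ (Finset.mem_univ q)))
    have h9 : t1 = r1 q := Subtype.ext (by rw [htz, hr1])
    rw [← h9]
    exact h8 t1 ht1
  have h9 := fin_all (β := β) (c := c) (dg := dg) (k0 := k0) (m := m) E hy hc D h3 h4 h5
    (fun a I q => D a I (r1 q)) (fun a I q => h3 a I _ (hrE q)) hd V hV
  refine (h9.image fun x j => (x j : K)).subset ?_
  rintro x ⟨hx, hx1, hxV, hxF⟩
  choose e he hex using fun j => hEK (x j) (hx j)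
  have hex' : (fun j => algebraMap K1 K (e j)) = x := funext hex
  have he1 : ∀ s, e (c s) = 1 := fun s => by
    apply Subtype.ext
    rw [hex, hx1]
    rfl
  refine ⟨e, ⟨he, he1, fun f hf => ?_, ?_⟩, funext hex⟩
  · apply (algebraMap K1 K).injective
    have h10 := hom_eval₂ f (algebraMap k0 K1) (algebraMap K1 K) e
    rw [h10, map_zero, hex']
    exact hxV f hf
  · refine exists_Fn (k0 := k0) hc he1 P (fun a j => y (s ⟨a, j⟩)) za R r1 hF0' h4
      (fun a b I hI => ?_) (fun ξ => ξ.elim) (fun ξ => ξ.elim) (fun ξ => ξ.elim) fun a => ?_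
    · simp only [sub_self, zero_mul, ite_self, Finset.sum_const_zero, add_zero]
      by_cases hab : a = b
      · subst hab
        rw [if_pos rfl, Finset.sum_eq_single (js a I hI)]
        · rw [h6, one_mul, hjs, Pool.Agent.K6.H80.LV.aeval_mn]
        · intro j _ hj
          rw [h7' a I hI j hj, zero_mul]
        · intro h; exact absurd (Finset.mem_univ _) h
      · rw [if_neg hab]
        exact Finset.sum_eq_zero fun j _ => by rw [h7 b a (Ne.symm hab) I hI, zero_mul]
    have hst : IsScalarTower k0 K1 K := IsScalarTower.of_algebraMap_eq fun r => rfl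
    refine alg_descend (Ω := K) ?_
    have h11 : algebraMap K1 K '' Set.range e = Set.range x := by
      rw [← Set.range_comp]
      congr 1
    have h12 : algebraMap K1 K (eval e (F0 a)) = eval x (F a) := by
      rw [← hF0, eval_map]
      have := hom_eval₂ (F0 a) (RingHom.id K1) (algebraMap K1 K) e
      rw [eval₂_id] at this
      rw [this, RingHom.comp_id, hex']
    rw [h11, h12]
    exact hxF a

end Pool.Agent.K6.H80.CD
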