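import Pool.Agent.K6.H80.CD.Gen

/-!
Members of linear systems such that the ratios of the coefficients generate a field of large
transcendence degree.
-/

set_option autoImplicit false
set_option linter.unusedSectionVars false

open MvPolynomial Pool.Agent.W602.GT

namespace Pool.Agent.K6.H80.CD

open Pool.Agent.K6.H80.LV (St DimB)

/-- A subfamily that is algebraically independent. -/
theorem exists_free {k K Q : Type} [Field k] [Field K] [Algebra k K] [Fintype Q] [DecidableEq Q]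
    (r : Q → K) {c : ℕ} (h : (Fintype.card Q : Cardinal) ≤
      Algebra.trdeg k (IntermediateField.adjoin k (Set.range r)) + c) :
    ∃ B : Finset Q, AlgebraicIndependent k (fun p : B => r p) ∧ Bᶜ.card ≤ c := by
  classical
  obtain ⟨F, hF⟩ : ∃ F, F = IntermediateField.adjoin k (Set.range r) := ⟨_, rfl⟩
  have hxF : ∀ i, r i ∈ F := fun i => by
    rw [hF]; exact IntermediateField.subset_adjoin _ _ ⟨i, rfl⟩
  obtain ⟨y, hy⟩ : ∃ y : Q → F, ∀ i, (y i : K) = r i := ⟨fun i => ⟨r i, hxF i⟩, fun _ => rfl⟩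
  rw [← hF] at h
  have htop : IntermediateField.adjoin k (Set.range y) = ⊤ := by
    rw [eq_top_iff]
    rintro ⟨z, hz⟩ -
    have h2 : (IntermediateField.adjoin k (Set.range y)).map F.val = F := by
      rw [IntermediateField.adjoin_map]
      conv_rhs => rw [hF]
      congr 1
      ext w
      constructor
      · rintro ⟨_, ⟨i, rfl⟩, rfl⟩
        exact ⟨i, (hy i).symm⟩
      · rintro ⟨i, rfl⟩
        exact ⟨y i, ⟨i, rfl⟩, hy i⟩
    have h3 : z ∈ (IntermediateField.adjoin k (Set.range y)).map F.val := by rw [h2]; exact hz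
    obtain ⟨w, hw, hwz⟩ := h3
    have h4 : w = ⟨z, hz⟩ := Subtype.ext hwz
    rw [← h4]
    exact hw
  have halg : Algebra.IsAlgebraic (Algebra.adjoin k (Set.range y)) F := by
    refine ⟨fun f => IntermediateField.isAlgebraic_adjoin_iff.1 ?_⟩
    have h5 : f ∈ IntermediateField.adjoin k (Set.range y) := by rw [htop]; trivial
    exact isAlgebraic_algebraMap (⟨f, h5⟩ : IntermediateField.adjoin k (Set.range y))
  obtain ⟨u, -, hu, hub⟩ := exists_isTranscendenceBasis_between (R := k) (∅ : Set F) (Set.range y)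
    (Set.empty_subset _) ((algebraicIndependent_empty_type_iff (R := k) (A := F)
      (x := fun i : (∅ : Set F) => (i : F))).2 (algebraMap k F).injective)
  have hfin : Finite u := Set.Finite.to_subtype ((Set.finite_range y).subset hu)
  have := Fintype.ofFinite u
  have hcard : Fintype.card Q ≤ Fintype.card u + c := by
    have h4 := hub.lift_cardinalMk_eq_trdeg
    have h6 : Cardinal.mk u = Algebra.trdeg k F := by simpa using h4
    rw [← h6, Cardinal.mk_fintype] at h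
    exact_mod_cast h
  choose l hl using fun i : u => hu i.2
  have hli : Function.Injective l := by
    intro i j hij
    apply Subtype.ext
    rw [← hl i, ← hl j, hij]
  obtain ⟨B, hB⟩ : ∃ B : Finset Q, B = Finset.univ.image l := ⟨_, rfl⟩
  have hBc : B.card = Fintype.card u := by
    rw [hB, Finset.card_image_of_injective _ hli, Finset.card_univ]
  refine ⟨B, ?_, ?_⟩
  · have h1 : AlgebraicIndependent k fun z : u => (z : F) := hub.1
    have h2 : AlgebraicIndependent k fun z : u => ((z : F) : K) :=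
      h1.map' (f := F.val) F.val.injective
    have h3 : ∀ p : B, ∃ z : u, l z = p.1 := by
      rintro ⟨p, hp⟩
      rw [hB, Finset.mem_image] at hp
      obtain ⟨z, -, hz⟩ := hp
      exact ⟨z, hz⟩
    choose g hg using h3
    have hgi : Function.Injective g := by
      intro p q hpq
      apply Subtype.ext
      rw [← hg p, ← hg q, hpq]
    have h4 := h2.comp g hgi
    have h5 : (fun p : B => r p) = (fun z : u => ((z : F) : K)) ∘ g := by
      funext p
      rw [Function.comp_apply, ← hl (g p), hy, hg]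
    rw [h5]
    exact h4
  · rw [Finset.card_compl, hBc]
    omega

section

variable {A : Type} {J : A → Type} [Fintype A] [∀ a, Fintype (J a)] [DecidableEq A]
  [∀ a, DecidableEq (J a)] {j0 : ∀ a, J a}

/-- The indices of the coefficients of the form `a` that are free, or the index `j0 a`. -/
def Fr (B : Finset (Σ a, {j : J a // j ≠ j0 a})) (a : A) (j : J a) : Prop :=
  j = j0 a ∨ ∃ h : j ≠ j0 a, (⟨a, ⟨j, h⟩⟩ : Σ a, {j : J a // j ≠ j0 a}) ∈ B

open scoped Classical in
/-- The sum over the free indices and over the other indices. -/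
theorem sum_split (B : Finset (Σ a, {j : J a // j ≠ j0 a})) {M : Type} [AddCommMonoid M] (a : A)
    (g : (Σ a, J a) → M) : ∑ j : J a, g ⟨a, j⟩ = ∑ j : {j : J a // Fr B a j}, g ⟨a, j.1⟩ +
      ∑ q : {p : (Σ a, {j : J a // j ≠ j0 a}) // p ∉ B},
        if q.1.1 = a then g ⟨q.1.1, q.1.2.1⟩ else 0 := by
  have h1 : ∑ q : {p : (Σ a, {j : J a // j ≠ j0 a}) // p ∉ B},
        (if q.1.1 = a then g ⟨q.1.1, q.1.2.1⟩ else 0) =
      ∑ p : (Σ a, {j : J a // j ≠ j0 a}), if p ∉ B then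
        (if p.1 = a then g ⟨p.1, p.2.1⟩ else 0) else 0 := by
    symm
    refine (Finset.sum_filter _ _).symm.trans ?_
    exact Finset.sum_subtype _ (fun p => by simp) _
  have h2 : ∑ p : (Σ a, {j : J a // j ≠ j0 a}), (if p ∉ B then
        (if p.1 = a then g ⟨p.1, p.2.1⟩ else 0) else 0) =
      ∑ j : {j : J a // j ≠ j0 a}, if (⟨a, j⟩ : Σ a, {j : J a // j ≠ j0 a}) ∉ B then
        g ⟨a, j.1⟩ else 0 := by
    rw [Fintype.sum_sigma, Finset.sum_eq_single a]
    · refine Finset.sum_congr rfl fun j _ => ?_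
      rw [if_pos rfl]
    · intro b _ hb
      refine Finset.sum_eq_zero fun j _ => ?_
      rw [if_neg (show ¬ (⟨b, j⟩ : Σ a, {j : J a // j ≠ j0 a}).1 = a from hb), ite_self]
    · intro h; exact absurd (Finset.mem_univ _) h
  have h3 : ∑ j : {j : J a // j ≠ j0 a}, (if (⟨a, j⟩ : Σ a, {j : J a // j ≠ j0 a}) ∉ B then
        g ⟨a, j.1⟩ else 0) = ∑ j : {j : J a // ¬ Fr B a j}, g ⟨a, j.1⟩ := by
    rw [← Finset.sum_filter]
    refine Finset.sum_bij' (fun j hj => ⟨j.1, ?_⟩) (fun j _ => ⟨j.1, ?_⟩) ?_ ?_ ?_ ?_ ?_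
    · rintro (h | ⟨h, h'⟩)
      · exact j.2 h
      · exact (Finset.mem_filter.1 hj).2 h'
    · intro h
      exact j.2 (Or.inl h)
    · intro j _
      exact Finset.mem_univ _
    · intro j _
      rw [Finset.mem_filter]
      exact ⟨Finset.mem_univ _, fun h => j.2 (Or.inr ⟨_, h⟩)⟩
    · intro j _
      rfl
    · intro j _
      rfl
    · intro j _
      rfl
  rw [h1, h2, h3]
  exact (Fintype.sum_subtype_add_sum_subtype (fun j => Fr B a j) fun j => g ⟨a, j⟩).symm

theorem free_indep {k K : Type} [Field k] [Field K] [Algebra k K] (cf : ∀ a, J a → K)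
    {B : Finset (Σ a, {j : J a // j ≠ j0 a})}
    (hB : AlgebraicIndependent k fun p : B => cf p.1.1 p.1.2.1 / cf p.1.1 (j0 p.1.1)) :
    AlgebraicIndependent k fun p : (Σ a, {j : {j : J a // Fr B a j} // j ≠ ⟨j0 a, Or.inl rfl⟩}) =>
      cf p.1 p.2.1.1 / cf p.1 (j0 p.1) := by
  have h1 : ∀ p : (Σ a, {j : {j : J a // Fr B a j} // j ≠ ⟨j0 a, Or.inl rfl⟩}),
      ∃ h : p.2.1.1 ≠ j0 p.1, (⟨p.1, ⟨p.2.1.1, h⟩⟩ : Σ a, {j : J a // j ≠ j0 a}) ∈ B := by
    rintro ⟨a, ⟨⟨j, hj⟩, hj'⟩⟩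
    have h : j ≠ j0 a := fun h => hj' (Subtype.ext h)
    rcases hj with h' | h'
    · exact absurd h' h
    · exact h'
  choose h hh using h1
  refine hB.comp (fun p => ⟨_, hh p⟩) ?_
  rintro ⟨a, ⟨⟨j, hj⟩, hj1⟩⟩ ⟨b, ⟨⟨i, hi⟩, hi1⟩⟩ hab
  have h2 := congrArg Subtype.val hab
  dsimp only at h2
  obtain rfl : a = b := congrArg Sigma.fst h2
  have h3 := congrArg Subtype.val (eq_of_heq (Sigma.mk.inj_iff.1 h2).2)
  dsimp only at h3
  subst h3
  rfl

end

variable {σ S A : Type} [Fintype σ] [Fintype S] [Fintype A] {β : σ → S} {c : S → σ}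
  {dg : A → S → ℕ}

theorem sys_of {k0 : Type} [Field k0] {J : A → Type} [∀ a, Fintype (J a)] [DecidableEq A]
    [∀ a, DecidableEq (J a)] {j0 : ∀ a, J a} {V : Set (MvPolynomial σ k0)}
    {P : ∀ a, J a → MvPolynomial σ k0} (B : Finset (Σ a, {j : J a // j ≠ j0 a})) (a : A)
    [Fintype {j : J a // Fr B a j}] {I : σ →₀ ℕ}
    (h : Pool.Agent.K6.H80.LV.Sys β V (P a) I) :
    Pool.Agent.K6.H80.CD.Sys β V (fun j : {j : J a // Fr B a j} => P a j.1)
      (fun q : {p : (Σ a, {j : J a // j ≠ j0 a}) // p ∉ B} => q.1.1)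
      (fun q => P q.1.1 q.1.2.1) a I := by
  classical
  obtain ⟨e, he⟩ := h
  obtain ⟨e', he'⟩ : ∃ e' : (Σ a, J a) → k0, ∀ j, e' ⟨a, j⟩ = e j := by
    refine ⟨fun p => if h : p.1 = a then e (h ▸ p.2) else 0, fun j => ?_⟩
    dsimp only
    rw [dif_pos rfl]
  refine ⟨fun j => e j.1, fun q => e' ⟨q.1.1, q.1.2.1⟩, fun Ω _ _ x hx hxV => ?_⟩
  rw [he Ω x hx hxV]
  have h1 := sum_split B a fun p : (Σ a, J a) => algebraMap k0 Ω (e' p) * aeval x (P p.1 p.2)
  dsimp only at h1
  simp only [he'] at h1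
  rw [h1]
  congr 1
  · refine Finset.sum_congr ?_ fun _ _ => rfl
    ext j
    simp
  · refine Finset.sum_congr rfl fun q _ => ?_
    split_ifs <;> rfl

open scoped Classical in
/-- Finiteness of the points. -/
theorem top_fin {k0 K : Type} [Field k0] [Field K] [Algebra k0 K] [IsAlgClosed K]
    [CharZero K] [IsAlgClosed k0] {m e : ℕ} {μ : S → ℕ} (hc : ∀ s, β (c s) = s)
    (hd : ∀ s, μ s + m + e + 2 ≤ ∑ a, (dg a s + 1))
    (V : Set (MvPolynomial σ k0)) (hV : DimB k0 β V m μ)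
    {J : A → Type} [∀ a, Fintype (J a)] (P : ∀ a, J a → MvPolynomial σ k0)
    (hP : ∀ a, ∀ I ∈ St β c (dg a), Pool.Agent.K6.H80.LV.Sys β V (P a) I)
    (cf : ∀ a, J a → K) (j0 : ∀ a, J a) (h0 : ∀ a, cf a (j0 a) ≠ 0)
    (B : Finset (Σ a, {j : J a // j ≠ j0 a})) (hB : Bᶜ.card ≤ e)
    (hind : AlgebraicIndependent k0 fun p : B => cf p.1.1 p.1.2.1 / cf p.1.1 (j0 p.1.1))
    {F : A → MvPolynomial σ K}
    (hF : ∀ a, F a = ∑ j, C (cf a j) * map (algebraMap k0 K) (P a j))
    (T : Finset K) :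
    {x : σ → K | (∀ j, x j ∈ IntermediateField.adjoin k0 (T : Set K)) ∧ (∀ s, x (c s) = 1) ∧
      (∀ f ∈ V, aeval x f = 0) ∧ ∀ a, eval x (F a) = 0}.Finite := by
  have hZ : Fintype.card {p : (Σ a, {j : J a // j ≠ j0 a}) // p ∉ B} ≤ e := by
    rw [Fintype.card_subtype]
    refine le_trans (le_of_eq ?_) hB
    congr 1
    ext p
    simp
  refine sys_fin (k0 := k0) (Z := {p : (Σ a, {j : J a // j ≠ j0 a}) // p ∉ B}) hc
    (fun s => ?_) V hV (fun a (j : {j : J a // Fr B a j}) => P a j.1) (fun q => q.1.1)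
    (fun q => P q.1.1 q.1.2.1) (fun q => cf q.1.1 q.1.2.1)
    (fun a I hI => sys_of B a (hP a I hI)) (fun a j => cf a j.1) (fun a => ⟨j0 a, Or.inl rfl⟩)
    h0 (free_indep cf hind) (fun a => ?_) T
  · have := hd s
    omega
  · rw [hF, sum_split B a fun p : (Σ a, J a) => C (cf p.1 p.2) *
      map (algebraMap k0 K) (P p.1 p.2)]

open scoped Classical in
/-- Subvarieties are of general type. -/
theorem top_gt {k0 K L : Type} [Field k0] [Field K] [Field L] [Algebra k0 K] [Algebra K L]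
    [Algebra k0 L] [IsScalarTower k0 K L] [IsAlgClosed K] [CharZero K] {m e w : ℕ} {μ : S → ℕ}
    (hc : ∀ s, β (c s) = s)
    (hd : ∀ s, μ s + m + e + 2 ≤ ∑ a, (dg a s + 1) + w)
    (V : Set (MvPolynomial σ k0)) (hV : DimB k0 β V m μ)
    {J : A → Type} [∀ a, Fintype (J a)] (P : ∀ a, J a → MvPolynomial σ k0)
    (hP : ∀ a, ∀ I ∈ St β c (dg a), Pool.Agent.K6.H80.LV.Sys β V (P a) I)
    (cf : ∀ a, J a → K) (j0 : ∀ a, J a) (h0 : ∀ a, cf a (j0 a) ≠ 0)
    (B : Finset (Σ a, {j : J a // j ≠ j0 a})) (hB : Bᶜ.card ≤ e)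
    (hind : AlgebraicIndependent k0 fun p : B => cf p.1.1 p.1.2.1 / cf p.1.1 (j0 p.1.1))
    {F : A → MvPolynomial σ K}
    (hF : ∀ a, F a = ∑ j, C (cf a j) * map (algebraMap k0 K) (P a j))
    (hw : 0 < w) (htr : Algebra.trdeg K L = w) {x : σ → L} (hx : ∀ s, x (c s) = 1)
    (hgen : Algebra.IsAlgebraic (IntermediateField.adjoin K (Set.range x)) L)
    (hxV : ∀ f ∈ V, aeval x f = 0) (hxF : ∀ a, aeval x (F a) = 0) :
    GeneralType K L w := by
  have hZ : Fintype.card {p : (Σ a, {j : J a // j ≠ j0 a}) // p ∉ B} ≤ e := by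
    rw [Fintype.card_subtype]
    refine le_trans (le_of_eq ?_) hB
    congr 1
    ext p
    simp
  refine sys_gt (k0 := k0) (Z := {p : (Σ a, {j : J a // j ≠ j0 a}) // p ∉ B}) hc
    (fun s => ?_) V hV (fun a (j : {j : J a // Fr B a j}) => P a j.1) (fun q => q.1.1)
    (fun q => P q.1.1 q.1.2.1) (fun q => cf q.1.1 q.1.2.1)
    (fun a I hI => sys_of B a (hP a I hI)) (fun a j => cf a j.1) (fun a => ⟨j0 a, Or.inl rfl⟩)
    h0 (free_indep cf hind) (F := F) (fun a => ?_) hw htr hx hgen hxV hxF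
  · have := hd s
    omega
  · rw [hF, sum_split B a fun p : (Σ a, J a) => C (cf p.1 p.2) *
      map (algebraMap k0 K) (P p.1 p.2)]

end Pool.Agent.K6.H80.CD
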