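import Pool.Agent.K6.H80.CD.Vert

/-!
Subvarieties are of general type, if all but some of the coefficients are generic.
-/

set_option autoImplicit false
set_option linter.unusedSectionVars false

open MvPolynomial FF Pool.Agent.W603.LV Pool.Agent.W603.PV Pool.Agent.TH145.GH
open Pool.Agent.W602.GT
open Pool.Agent.TH145.GF (vE det_dec der_comb exists_lift exists_dualsG)

namespace Pool.Agent.K6.H80.CD

open Pool.Agent.K6.H80.LV (mn sM St pw up px px_apply sum_px OK Ti Ix sc fac mn_step sM_zero pw_mem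
  mn_pw up_le Vert sM_up_mem det_blk po po_le exists_po exists_sc IsT tw fac_ne ord_fac bp num DimB
  exists_coord_basis rank_le rank_le_blk aeval_mn)

variable {σ S A Z : Type} [Fintype σ] [Fintype S] [Fintype A] [Fintype Z] {β : σ → S} {c : S → σ}
  {dg : A → S → ℕ}

open scoped Classical in
/-- Subvarieties are of general type. -/
theorem gen_core {k0 K L : Type} [Field k0] [Field K] [Field L] [Algebra k0 K] [Algebra K L]
    [Algebra k0 L] [IsScalarTower k0 K L] [IsAlgClosed K] [CharZero K] {m w : ℕ} {μ : S → ℕ}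
    (hc : ∀ s, β (c s) = s)
    (hd : ∀ s, μ s + (m + Fintype.card Z) + 2 ≤ ∑ a, (dg a s + 1) + w)
    (V : Set (MvPolynomial σ k0)) (hV : DimB k0 β V m μ)
    (hw : 0 < w) (htr : Algebra.trdeg K L = w) {x : σ → L} (hx : ∀ s, x (c s) = 1)
    (hgen : Algebra.IsAlgebraic (IntermediateField.adjoin K (Set.range x)) L)
    (hxV : ∀ f ∈ V, aeval x f = 0)
    (hD : ∀ t : Fin w → L, IsTranscendenceBasis K t →
      ∃ (D : A → (σ →₀ ℕ) → Derivation ℤ L L) (ζ : A → (σ →₀ ℕ) → Z → L),
        (∀ a I, Sem K (D a I)) ∧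
        (∀ a I (r : k0), D a I (algebraMap k0 L r) = 0) ∧
        (∀ a I q, ∃ r : K, ζ a I q = algebraMap K L r) ∧
        ∀ E : Fin w → Derivation K L L, ∃ φ, Fn β c dg D ζ (vE E) x φ) :
    GeneralType K L w := by
  have hL : CharZero L := charZero_of_injective_algebraMap (algebraMap K L).injective
  obtain ⟨l, hl⟩ := exists_coord_basis htr hgen
  obtain ⟨t, ht⟩ : ∃ t : Fin w → L, ∀ i, t i = x (l i) := ⟨_, fun _ => rfl⟩
  have htb : IsTranscendenceBasis K t := by
    have : t = fun i => x (l i) := funext ht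
    rw [this]
    exact hl
  obtain ⟨D, ζ, hDS, hDk, hζk, hDφ⟩ := hD t htb
  obtain ⟨E, hE⟩ : ∃ E : Fin w → Derivation K L L, ∀ i j, E i (t j) = if i = j then 1 else 0 := by
    obtain ⟨E, hE⟩ := exists_dual htb
    refine ⟨E, fun i j => ?_⟩
    have := congrFun (congrFun hE i) j
    rw [Matrix.of_apply, Matrix.one_apply] at this
    rw [this]
  have hEk : ∀ ξ (r : k0), vE E ξ (algebraMap k0 L r) = 0 := by
    intro i r
    change E i (algebraMap k0 L r) = 0
    rw [IsScalarTower.algebraMap_apply k0 K L]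
    exact (E i).map_algebraMap _
  obtain ⟨φ, hφ⟩ := hDφ E
  obtain ⟨hV1, hV2⟩ := hV L x (fun s => ⟨c s, hc s, hx s⟩) hxV
  have hrk : Module.finrank L (Full β c dg D ζ (vE E) x) ≤
      m + Fintype.card Z + Fintype.card S := by
    have h1 := rank_le (k0 := k0) (β := β) (c := c) (dg := dg) (D := D) (E := vE E) hc hDk hEk hx
      hV1
    have h2 := rank_add (β := β) (c := c) (dg := dg) (D := D) (ζ := ζ) (E := vE E) x
    omega
  have hindep : LinearIndepOn L (vv β c dg D ζ (vE E) x fun a => pw c (dg a))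
      (Vert σ S A (Fin w)) := by
    obtain ⟨f, hf⟩ : ∃ f : S ⊕ Fin w → Ix σ S A (Fin w) ⊕ A, ∀ o, f o =
      Sum.elim (fun s => Sum.inl (Sum.inl s)) (fun i => Sum.inl (Sum.inr (Sum.inl i))) o :=
      ⟨_, fun _ => rfl⟩
    have h1 : Vert σ S A (Fin w) = f '' Set.univ := by
      ext i
      constructor
      · rintro (⟨s, rfl⟩ | ⟨i, rfl⟩)
        · exact ⟨Sum.inl s, trivial, by rw [hf]; rfl⟩
        · exact ⟨Sum.inr i, trivial, by rw [hf]; rfl⟩
      · rintro ⟨(s | i), -, rfl⟩
        · rw [hf]; exact Or.inl ⟨s, rfl⟩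
        · rw [hf]; exact Or.inr ⟨i, rfl⟩
    rw [h1]
    refine LinearIndepOn.image_of_comp _ _ ?_
    rw [linearIndepOn_univ_iff, Fintype.linearIndependent_iff]
    intro r hr
    have h2 : ∀ q, r (Sum.inl (β q)) * x q + ∑ i, r (Sum.inr i) * E i (x q) = 0 := by
      intro q
      have h3 := congrFun hr (Sum.inl q)
      rw [Fintype.sum_sum_type, Pi.add_apply, Finset.sum_apply, Finset.sum_apply] at h3
      simp only [Function.comp_apply, hf, Sum.elim_inl, Sum.elim_inr, Pi.smul_apply, smul_eq_mul,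
        Pi.zero_apply, vv, wv, ps, ev, Sum.elim_inl] at h3
      rw [sum_px β x (fun s => r (Sum.inl s)) q] at h3
      exact h3
    have h3 : ∀ s, r (Sum.inl s) = 0 := by
      intro s
      have h4 := h2 (c s)
      rw [hx, mul_one, hc, Finset.sum_eq_zero fun i _ => by
        rw [(E i).map_one_eq_zero, mul_zero], add_zero] at h4
      exact h4
    rintro (s | j)
    · exact h3 s
    · have h4 := h2 (l j)
      rw [h3, zero_mul, zero_add, ← ht, Finset.sum_eq_single j] at h4
      · rwa [hE, if_pos rfl, mul_one] at h4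
      · intro i _ hi
        rw [hE, if_neg hi, mul_zero]
      · intro h; exact absurd (Finset.mem_univ _) h
  have hx0 : ∀ s, x (c s) ≠ 0 := fun s => by rw [hx]; exact one_ne_zero
  obtain ⟨b, hbV, hbA, hbi, hspan, hcard⟩ := exists_rows hc hx0 hφ hindep
  obtain ⟨τ, hτ⟩ := Pool.Agent.TH145.GC.exists_minor _ hbi
  have hdet : (mx β c dg D ζ (vE E) x (fun a => pw c (dg a)) b τ).det ≠ 0 := by
    rw [Ne, det_dec _ _ (mx β c dg D ζ (vE E) x (fun a => pw c (dg a)) b τ)]
    exact hτ
  have hbc : b.card ≤ m + Fintype.card Z + Fintype.card S := by rw [← hcard]; exact hrk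
  have hα : ∀ s, col β τ s + tw b s + 1 ≤ ∑ a, dg a s := by
    intro s
    have h1 := num hbV hbA s
    have h1' := col_le (fun a => pw_mem hc _) τ hdet s
      (rank_le_blk (k0 := k0) hc hDk hEk hx s (hV2 s))
    have h2 := hd s
    rw [Finset.sum_add_distrib, Finset.sum_const, Finset.card_univ, smul_eq_mul, mul_one] at h2
    rw [Fintype.card_fin] at h1
    omega
  have hmn : ∏ a, mn x (pw c (dg a)) = 1 := by
    refine Finset.prod_eq_one fun a _ => ?_
    rw [mn_pw]
    exact Finset.prod_eq_one fun s _ => by rw [hx, one_pow]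
  -- the forms
  obtain ⟨q, hq⟩ : ∃ q : Fin (w + 1) → L, q = Fin.cons 1 t := ⟨_, rfl⟩
  obtain ⟨Φ, hΦ⟩ : ∃ Φ : (Fin w → Derivation K L L) → L, ∀ Dd, Φ Dd =
    (mx β c dg D ζ (vE Dd) x (fun a => pw c (dg a)) b τ).det := ⟨_, fun _ => rfl⟩
  have hlin : ∀ (M : Matrix (Fin w) (Fin w) L) (D1 D2 : Fin w → Derivation K L L),
      (∀ i f, D1 i f = ∑ j, M i j * D2 j f) → Φ D1 = M.det * Φ D2 := by
    intro M D1 D2 h
    have h1 := det_lin (β := β) (c := c) (dg := dg) (D := D) (ζ := ζ) (E := vE D2) (E' := vE D1) (M := M)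
      h x hbV τ (fun a => pw c (dg a))
    rw [hΦ, hΦ]
    exact (det_dec _ _ _).trans (h1.trans (congrArg₂ (· * ·) (det_dec _ _ _) (det_dec _ _ _)))
  have hΦE : Φ E ≠ 0 := by rw [hΦ]; exact hdet
  refine ⟨htr, 1, one_pos, fun j Dd => Φ Dd * q j, fun j M Dd => ?_, fun Q hQ j Dd hDd => ?_,
    E, ?_, ?_⟩
  · have h1 : Φ (fun i => ∑ j, M i j • Dd j) = M.det * Φ Dd := hlin M _ Dd (fun i f => by
      rw [← Derivation.coeFnAddMonoidHom_apply, map_sum, Finset.sum_apply]
      rfl)
    rw [pow_one]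
    dsimp only
    rw [h1, mul_assoc]
  · obtain ⟨M, hM⟩ : ∃ M : Matrix (Fin w) (Fin w) L, M = Matrix.of fun i j => Dd i (t j) :=
      ⟨_, rfl⟩
    have hΦM := hlin M Dd E (fun i f => by
      rw [der_comb htb hE (Dd i) f, hM]
      rfl)
    dsimp only
    by_cases hM0 : M.det = 0
    · rw [hΦM, hM0, zero_mul, zero_mul]
      exact Q.reg_zero
    have h1 := vert_est hc hw htr hQ hDS (fun a I q => by
      obtain ⟨r, hr⟩ := hζk a I q
      rw [hr]
      exact Ge.const r) htb hE hDd hM hM0 hx0 hbV hbA τ hspan hdet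
    rw [hmn, div_one] at h1
    have hpo : ∀ s, po β Q x s ≤ 0 := by
      intro s
      have := po_le (β := β) Q (hx0 s)
      rwa [hx, Q.ord_one, hc] at this
    -- the lower bound
    have h2 : ∀ s0, - po β Q x s0 ≤
        ∑ s, ((col β τ s + tw b s : ℕ) - (∑ a, dg a s : ℕ)) * po β Q x s := by
      intro s0
      have h3 : ∀ s, (if s = s0 then - po β Q x s else 0) ≤
          (((col β τ s + tw b s : ℕ) : ℤ) - (∑ a, dg a s : ℕ)) * po β Q x s := by
        intro s
        have h4 : (((col β τ s + tw b s + 1 : ℕ)) : ℤ) ≤ (∑ a, dg a s : ℕ) := by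
          exact_mod_cast hα s
        have h5 := hpo s
        have h6 : 0 ≤ (((col β τ s + tw b s : ℕ) : ℤ) + 1 - (∑ a, dg a s : ℕ)) * po β Q x s := by
          refine mul_nonneg_of_nonpos_of_nonpos ?_ h5
          push_cast at h4 ⊢
          linarith
        split_ifs
        · linarith
        · linarith
      have h4 := Finset.sum_le_sum (s := Finset.univ) fun s _ => h3 s
      rw [Finset.sum_ite_eq' Finset.univ s0, if_pos (Finset.mem_univ _)] at h4
      exact h4
    have h3 : ∀ s0, Ge Q (- po β Q x s0) (Φ Dd) := by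
      intro s0
      right
      rw [hΦM, Q.ord_mul hM0 hΦE, hΦ]
      exact (h2 s0).trans h1
    have hge : ∀ z, Ge Q 0 z → Q.Reg z := fun z hz => hz
    apply hge
    refine Fin.cases ?_ (fun i => ?_) j
    · rw [hq, Fin.cons_zero, mul_one]
      refine (h3 (β (l ⟨0, hw⟩))).mono ?_
      have := hpo (β (l ⟨0, hw⟩))
      omega
    · rw [hq, Fin.cons_succ]
      have h4 : Ge Q (po β Q x (β (l i))) (t i) := by
        rw [ht]
        by_cases h0 : x (l i) = 0
        · exact Or.inl h0
        · exact Or.inr (po_le (β := β) Q h0)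
      have h5 := (h3 (β (l i))).mul h4
      rwa [neg_add_cancel] at h5
  · dsimp only
    rw [hq, Fin.cons_zero, mul_one]
    exact hΦE
  · have h1 : (fun i : Fin w => Φ E * q i.succ / (Φ E * q 0)) = t := by
      funext i
      rw [hq, Fin.cons_succ, Fin.cons_zero, mul_one, mul_div_cancel_left₀ _ hΦE]
    rw [h1]
    exact htb.1

open scoped Classical in
/-- Subvarieties of the zero loci are of general type. -/
theorem sys_gt {k0 K L : Type} [Field k0] [Field K] [Field L] [Algebra k0 K] [Algebra K L]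
    [Algebra k0 L] [IsScalarTower k0 K L] [IsAlgClosed K] [CharZero K] {m w : ℕ} {μ : S → ℕ}
    (hc : ∀ s, β (c s) = s)
    (hd : ∀ s, μ s + (m + Fintype.card Z) + 2 ≤ ∑ a, (dg a s + 1) + w)
    (V : Set (MvPolynomial σ k0)) (hV : DimB k0 β V m μ)
    {J : A → Type} [∀ a, Fintype (J a)] (P : ∀ a, J a → MvPolynomial σ k0)
    (za : Z → A) (R : Z → MvPolynomial σ k0) (rr : Z → K)
    (hP : ∀ a, ∀ I ∈ St β c (dg a), Sys β V (P a) za R a I)
    (cf : ∀ a, J a → K) (j0 : ∀ a, J a) (h0 : ∀ a, cf a (j0 a) ≠ 0)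
    (hind : AlgebraicIndependent k0 fun p : (Σ a, {j : J a // j ≠ j0 a}) =>
      cf p.1 p.2.1 / cf p.1 (j0 p.1))
    {F : A → MvPolynomial σ K}
    (hF : ∀ a, F a = ∑ j, C (cf a j) * map (algebraMap k0 K) (P a j) +
      ∑ q, if za q = a then C (rr q) * map (algebraMap k0 K) (R q) else 0)
    (hw : 0 < w) (htr : Algebra.trdeg K L = w) {x : σ → L} (hx : ∀ s, x (c s) = 1)
    (hgen : Algebra.IsAlgebraic (IntermediateField.adjoin K (Set.range x)) L)
    (hxV : ∀ f ∈ V, aeval x f = 0) (hxF : ∀ a, aeval x (F a) = 0) :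
    GeneralType K L w := by
  classical
  have hL : CharZero L := charZero_of_injective_algebraMap (algebraMap K L).injective
  refine gen_core (Z := Z) hc hd V hV hw htr hx hgen hxV fun t htb => ?_
  obtain ⟨D0, hD0S, hD0⟩ := exists_dualsG htb _ hind
  choose! e e' he using hP
  -- the normalized coefficients
  obtain ⟨cg, hcg⟩ : ∃ cg : ∀ a, J a → K, ∀ a j, cg a j = cf a j / cf a (j0 a) :=
    ⟨_, fun _ _ => rfl⟩
  obtain ⟨rg, hrg⟩ : ∃ rg : Z → K, ∀ q, rg q = rr q / cf (za q) (j0 (za q)) :=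
    ⟨_, fun _ => rfl⟩
  have hcg0 : ∀ a, cg a (j0 a) = 1 := fun a => by rw [hcg, div_self (h0 a)]
  obtain ⟨G, hG⟩ : ∃ G : A → MvPolynomial σ L, ∀ a, G a =
    ∑ j, C (algebraMap K L (cg a j)) * map (algebraMap k0 L) (P a j) +
      ∑ q, (if za q = a then C (algebraMap K L (rg q)) * map (algebraMap k0 L) (R q) else 0) :=
    ⟨_, fun _ => rfl⟩
  have hGx : ∀ a, ∑ j, algebraMap K L (cg a j) * aeval x (P a j) +
      ∑ q, (if za q = a then algebraMap K L (rg q) * aeval x (R q) else 0) = 0 := by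
    intro a
    have h1 := hxF a
    rw [hF, map_add, map_sum, map_sum] at h1
    have h3 : algebraMap K L (cf a (j0 a)) ≠ 0 := by rw [Ne, map_eq_zero]; exact h0 a
    have h2 : ∀ j, aeval x (C (cf a j) * map (algebraMap k0 K) (P a j)) =
        algebraMap K L (cf a (j0 a)) * (algebraMap K L (cg a j) * aeval x (P a j)) := by
      intro j
      rw [map_mul, aeval_C, aeval_map_algebraMap, hcg, map_div₀]
      field_simp
    have h2' : ∀ q, aeval x (if za q = a then C (rr q) * map (algebraMap k0 K) (R q) else 0) =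
        algebraMap K L (cf a (j0 a)) *
          (if za q = a then algebraMap K L (rg q) * aeval x (R q) else 0) := by
      intro q
      split_ifs with hq
      · rw [map_mul, aeval_C, aeval_map_algebraMap, hrg, hq, map_div₀]
        field_simp
      · rw [map_zero, mul_zero]
    rw [Finset.sum_congr rfl fun j _ => h2 j, Finset.sum_congr rfl fun q _ => h2' q,
      ← Finset.mul_sum, ← Finset.mul_sum, ← mul_add] at h1
    exact (mul_eq_zero.1 h1).resolve_left h3
  -- the derivations
  obtain ⟨co, hco⟩ : ∃ co : ∀ a, (σ →₀ ℕ) → J a → L, ∀ a I j, co a I j =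
      if I ∈ St β c (dg a) then algebraMap k0 L (e a I j) -
        algebraMap k0 L (e a I (j0 a)) * algebraMap K L (cg a j) else 0 := ⟨_, fun _ _ _ => rfl⟩
  have hco0 : ∀ a I, co a I (j0 a) = 0 := by
    intro a I
    rw [hco]
    split_ifs
    · rw [hcg0, map_one, mul_one, sub_self]
    · rfl
  obtain ⟨D, hD⟩ : ∃ D : A → (σ →₀ ℕ) → Derivation ℤ L L, ∀ a I f, D a I f =
      ∑ j : {j : J a // j ≠ j0 a}, co a I j * D0 ⟨a, j⟩ f := by
    refine ⟨fun a I => ∑ j : {j : J a // j ≠ j0 a}, co a I j •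
      (D0 ⟨a, j⟩).restrictScalars ℤ, fun a I f => ?_⟩
    rw [← Derivation.coeFnAddMonoidHom_apply, map_sum, Finset.sum_apply]
    rfl
  have hDk : ∀ a I (r : k0), D a I (algebraMap k0 L r) = 0 := by
    intro a I r
    rw [hD]
    exact Finset.sum_eq_zero fun j _ => by rw [(D0 _).map_algebraMap, mul_zero]
  have hDv : ∀ a I b j, D a I (algebraMap K L (cg b j)) = if h : a = b then co b I j else 0 := by
    intro a I b j
    rw [hD]
    by_cases hj : j = j0 b
    · subst hj
      rw [hco0, hcg0, map_one]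
      rw [Finset.sum_eq_zero fun j _ => by rw [Derivation.map_one_eq_zero, mul_zero]]
      split_ifs <;> rfl
    · have h1 : ∀ j' : {j : J a // j ≠ j0 a}, D0 ⟨a, j'⟩ (algebraMap K L (cg b j)) =
          if (⟨a, j'⟩ : (Σ a, {j : J a // j ≠ j0 a})) = ⟨b, ⟨j, hj⟩⟩ then 1 else 0 := by
        intro j'
        rw [hcg]
        exact (hD0 ⟨a, j'⟩ ⟨b, ⟨j, hj⟩⟩).trans (by congr)
      by_cases hab : a = b
      · subst hab
        rw [dif_pos rfl, Finset.sum_eq_single ⟨j, hj⟩]
        · rw [h1, if_pos rfl, mul_one]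
        · intro j' _ hj'
          rw [h1, if_neg, mul_zero]
          intro h
          exact hj' (eq_of_heq (Sigma.mk.inj_iff.1 h).2)
        · intro h; exact absurd (Finset.mem_univ _) h
      · rw [dif_neg hab]
        refine Finset.sum_eq_zero fun j' _ => ?_
        rw [h1, if_neg, mul_zero]
        intro h
        exact hab (congrArg Sigma.fst h)
  have hDS : ∀ a I, Sem K (D a I) := by
    intro a I r
    have h1 : ∀ j : {j : J a // j ≠ j0 a}, ∃ r' : K, co a I j * D0 ⟨a, j⟩ (algebraMap K L r) =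
        algebraMap K L r' := by
      intro j
      obtain ⟨r1, hr1⟩ := hD0S ⟨a, j⟩ r
      have hr1' : D0 ⟨a, j⟩ (algebraMap K L r) = algebraMap K L r1 := hr1
      rw [hr1', hco]
      split_ifs
      · refine ⟨(algebraMap k0 K (e a I j) - algebraMap k0 K (e a I (j0 a)) * cg a j) * r1, ?_⟩
        rw [map_mul, map_sub, map_mul, ← IsScalarTower.algebraMap_apply,
          ← IsScalarTower.algebraMap_apply]
      · exact ⟨0, by rw [zero_mul, map_zero]⟩
    choose r' hr' using h1
    refine ⟨∑ j, r' j, ?_⟩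
    rw [hD, map_sum]
    exact Finset.sum_congr rfl fun j _ => hr' j
  -- the additional coordinates
  obtain ⟨cq, hcq⟩ : ∃ cq : A → (σ →₀ ℕ) → Z → K, ∀ a I q, cq a I q =
      if za q = a then algebraMap k0 K (e' a I q) - algebraMap k0 K (e a I (j0 a)) * rg q
      else 0 := ⟨_, fun _ _ _ => rfl⟩
  obtain ⟨ζ, hζ⟩ : ∃ ζ : A → (σ →₀ ℕ) → Z → L, ∀ a I q, ζ a I q =
      D a I (algebraMap K L (rg q)) - algebraMap K L (cq a I q) := ⟨_, fun _ _ _ => rfl⟩
  refine ⟨D, ζ, hDS, hDk, fun a I q => ?_, fun E => ?_⟩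
  · obtain ⟨r, hr⟩ := hDS a I (rg q)
    refine ⟨r - cq a I q, ?_⟩
    rw [hζ, hr, map_sub]
  have hEk : ∀ ξ (r : k0), vE E ξ (algebraMap k0 L r) = 0 := by
    intro i r
    change E i (algebraMap k0 L r) = 0
    rw [IsScalarTower.algebraMap_apply k0 K L]
    exact (E i).map_algebraMap _
  refine exists_Fn (k0 := k0) (E := vE E) hc hx P (fun a j => algebraMap K L (cg a j)) za R
    (fun q => algebraMap K L (rg q))
    (F := G) hG hDk (fun a b I hI => ?_) hEk (fun ξ b j => (E ξ).map_algebraMap _)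
    (fun ξ q => (E ξ).map_algebraMap _) (fun a => ?_)
  · by_cases hab : a = b
    · subst hab
      rw [if_pos rfl]
      have h1 : ∀ j, D a I (algebraMap K L (cg a j)) * aeval x (P a j) =
          algebraMap k0 L (e a I j) * aeval x (P a j) -
            algebraMap k0 L (e a I (j0 a)) * (algebraMap K L (cg a j) * aeval x (P a j)) := by
        intro j
        rw [hDv, dif_pos rfl, hco, if_pos hI]
        ring
      have h2 : ∀ q, (if za q = a then (D a I (algebraMap K L (rg q)) - ζ a I q) *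
          aeval x (R q) else 0) =
          (if za q = a then algebraMap k0 L (e' a I q) * aeval x (R q) else 0) -
            algebraMap k0 L (e a I (j0 a)) *
              (if za q = a then algebraMap K L (rg q) * aeval x (R q) else 0) := by
        intro q
        split_ifs with hq
        · rw [hζ, hcq, if_pos hq, map_sub, map_mul, ← IsScalarTower.algebraMap_apply,
            ← IsScalarTower.algebraMap_apply]
          ring
        · ring
      rw [Finset.sum_congr rfl fun j _ => h1 j, Finset.sum_congr rfl fun q _ => h2 q,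
        Finset.sum_sub_distrib, Finset.sum_sub_distrib, ← Finset.mul_sum, ← Finset.mul_sum]
      have h3 := he a I hI L x (fun s => ⟨c s, hc s, hx s⟩) hxV
      rw [aeval_mn] at h3
      rw [h3]
      linear_combination (- algebraMap k0 L (e a I (j0 a))) * hGx a
    · rw [if_neg hab, Finset.sum_eq_zero, zero_add, Finset.sum_eq_zero]
      · intro q _
        split_ifs with hq
        · rw [hζ, hcq, if_neg (fun h => hab (hq.symm.trans h)), map_zero, sub_zero, sub_self,
            zero_mul]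
        · rfl
      · intro j _
        rw [hDv, dif_neg (Ne.symm hab), zero_mul]
  · have h1 : eval x (G a) = 0 := by
      rw [eval_F (P a) _ za R _ a (hG a)]
      exact hGx a
    rw [h1]
    exact isAlgebraic_zero

end Pool.Agent.K6.H80.CD
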