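import Pool.Agent.K6.H80.CD.Choice
import Pool.Agent.K6.H80.LV.Tan

/-!
The height inequality, with additional coordinates.
-/

set_option autoImplicit false
set_option linter.unusedSectionVars false

open MvPolynomial FF Pool.Agent.W603.LV Pool.Agent.W603.PV

namespace Pool.Agent.K6.H80.CD

open Pool.Agent.K6.H80.LV (mn sM St pw up px px_apply sum_px OK Ti Ix sc fac mn_step sM_zero pw_mem
  mn_pw up_le Vert sM_up_mem det_blk po po_le exists_po exists_sc IsT tw fac_ne ord_fac bp bht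
  sum_blocks hgt_le_bht num)

variable {k K : Type} [Field k] [Field K] [Algebra k K] {σ S A X Z : Type}

variable [Fintype σ] [Fintype S] {β : σ → S} {c : S → σ} {dg : A → S → ℕ}
  {D : A → (σ →₀ ℕ) → Derivation ℤ K K} {ζ : A → (σ →₀ ℕ) → Z → K} {E : X → Derivation ℤ K K}

theorem ge_vv (hc : ∀ s, β (c s) = s) {P : Place k K} {ε : ℤ} (hε : 0 ≤ ε) {x : σ → K}
    (hx : ∀ l, Ge P 0 (x l))
    (hD : ∀ l a, ∀ I ∈ St β c (dg a), Ge P (-ε) (D a I (x l)))
    (hζ : ∀ q a, ∀ I ∈ St β c (dg a), Ge P (-ε) (ζ a I q))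
    (hE : ∀ ξ l, Ge P (-ε) (E ξ (x l))) {I : A → σ →₀ ℕ} (hI : ∀ a, I a ∈ St β c (dg a))
    (i : Ix σ S A X ⊕ A) (l : σ ⊕ Z) : Ge P (-ε) (vv β c dg D ζ E x I i l) := by
  classical
  rcases l with l | q
  · rw [vv_inl]
    exact Pool.Agent.K6.H80.LV.ge_vv hc hε hx hD hE hI i l
  rcases i with (s | ξ | t) | a
  · exact Ge.zero
  · exact Ge.zero
  · simp only [vv, wv, tv]
    split_ifs with ht
    · refine Ge.mono (by omega : -ε ≤ 0 + -ε) (Ge.sub ?_ ?_)
      · exact (hx _).mul (hζ q _ _ (sM_up_mem ht.1 ht.2.1 ht.2.2))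
      · exact (hx _).mul (hζ q _ _ ⟨_, _, ht.1, ht.2.1, rfl⟩)
    · exact Ge.zero
  · exact hζ q a _ (hI a)

/-- The column is in the block. -/
def Inb (β : σ → S) (s : S) : σ ⊕ Z → Prop := Sum.elim (fun l => β l = s) fun _ => False

open scoped Classical in
/-- The number of the columns in a block. -/
noncomputable def col (β : σ → S) {b : Finset (Ix σ S A X ⊕ A)} (τ : b → σ ⊕ Z) (s : S) : ℕ :=
  (Finset.univ.filter fun j : b => Inb β s (τ j)).card

theorem lz_ne {lam : S → K} (hl : ∀ s, lam s ≠ 0) (l : σ ⊕ Z) : lz Z β lam l ≠ 0 := by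
  rcases l with l | q
  · exact hl _
  · exact one_ne_zero

open scoped Classical in
/-- The orders of the factors. -/
theorem ord_factors (P : Place k K) {lam : S → K} (hl : ∀ s, lam s ≠ 0)
    {b : Finset (Ix σ S A X ⊕ A)} (τ : b → σ ⊕ Z) :
    P.ord ((∏ j : b, lz Z β lam (τ j)) * (∏ i : b, fac lam i.1)) =
      ∑ s, ((col β τ s + tw b s : ℕ) : ℤ) * P.ord (lam s) := by
  have h1 : (∏ j : b, lz Z β lam (τ j)) ≠ 0 :=
    Finset.prod_ne_zero_iff.2 fun j _ => lz_ne hl _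
  have h2 : (∏ i : b, fac lam i.1) ≠ 0 := Finset.prod_ne_zero_iff.2 fun i _ => fac_ne hl _
  rw [P.ord_mul h1 h2, Pool.Agent.TH145.GC.ord_prod P _ _ fun j _ => lz_ne hl _,
    Pool.Agent.TH145.GC.ord_prod P _ _ fun i _ => fac_ne hl _]
  have h3 : ∑ j : b, P.ord (lz Z β lam (τ j)) = ∑ s, (col β τ s : ℤ) * P.ord (lam s) := by
    have : ∀ l : σ ⊕ Z, P.ord (lz Z β lam l) =
        ∑ s, if Inb β s l then P.ord (lam s) else 0 := by
      rintro (l | q)
      · rw [Finset.sum_eq_single (β l)]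
        · rw [if_pos (show Inb β (β l) (Sum.inl l : σ ⊕ Z) from rfl)]
          rfl
        · intro s _ hs
          rw [if_neg]
          intro h
          exact hs (show β l = s from h).symm
        · intro h
          exact absurd (Finset.mem_univ _) h
      · rw [Finset.sum_eq_zero]
        · exact P.ord_one
        · intro s _
          rw [if_neg]
          exact id
    rw [Finset.sum_congr rfl fun j _ => this (τ j), Finset.sum_comm]
    refine Finset.sum_congr rfl fun s _ => ?_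
    rw [← Finset.sum_filter, Finset.sum_const, nsmul_eq_mul]
    rfl
  have h4 : ∑ i : b, P.ord (fac lam i.1) = ∑ s, (tw b s : ℤ) * P.ord (lam s) := by
    rw [Finset.sum_coe_sort b (fun i => P.ord (fac lam i)),
      Finset.sum_congr rfl fun i _ => ord_fac P lam i, Finset.sum_comm]
    refine Finset.sum_congr rfl fun s _ => ?_
    rw [← Finset.sum_filter, Finset.sum_const, nsmul_eq_mul]
    rfl
  rw [h3, h4, ← Finset.sum_add_distrib]
  exact Finset.sum_congr rfl fun s _ => by push_cast; ring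

open scoped Classical in
/-- The local identity. -/
theorem local_id [Fintype A] (hc : ∀ s, β (c s) = s) (P : Place k K)
    {x : σ → K} (hx : ∀ s, x (c s) ≠ 0)
    {b : Finset (Ix σ S A X ⊕ A)} (hbp : ∀ s, Sum.inl (Sum.inl s) ∈ b) (hb : ∀ a, Sum.inr a ∈ b)
    (τ : b → σ ⊕ Z) (hspan : Submodule.span K (Set.range (wv β c dg D ζ E x)) ≤
        Submodule.span K (wv β c dg D ζ E x '' {o | Sum.inl o ∈ b}))
    (hdet : (mx β c dg D ζ E x (fun a => pw c (dg a)) b τ).det ≠ 0) :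
    ∃ (x' : σ → K) (e : S → σ), (∀ l, Ge P 0 (x' l)) ∧ (∀ s, β (e s) = s) ∧
      (mx β c dg D ζ E x' (fun a => pw e (dg a)) b τ).det ≠ 0 ∧
      ∑ s, ((col β τ s + tw b s : ℕ) - (∑ a, dg a s : ℕ)) * po β P x s +
        P.ord (mx β c dg D ζ E x' (fun a => pw e (dg a)) b τ).det =
      P.ord ((mx β c dg D ζ E x (fun a => pw c (dg a)) b τ).det / ∏ a, mn x (pw c (dg a))) := by
  obtain ⟨lam, x', e, hl, hlo, hxx, hx', he, he1⟩ := exists_sc hc P hx
  have hpe : ∀ a, pw e (dg a) ∈ St β c (dg a) := fun a => pw_mem he _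
  have h1 := det_change hx hb τ hspan (fun a => pw e (dg a)) hpe
  have h2 := det_lam (dg := dg) (D := D) (ζ := ζ) (E := E) hc (x := x') hl hbp τ
    (fun a => pw e (dg a))
  rw [← hxx] at h2
  rw [h2] at h1
  obtain ⟨d0, hd0⟩ : ∃ d0, d0 = (mx β c dg D ζ E x (fun a => pw c (dg a)) b τ).det := ⟨_, rfl⟩
  obtain ⟨d1, hd1⟩ : ∃ d1, d1 = (mx β c dg D ζ E x' (fun a => pw e (dg a)) b τ).det := ⟨_, rfl⟩
  rw [← hd0] at hdet h1
  rw [← hd1] at h1
  have hmc : ∀ a, mn x (pw c (dg a)) ≠ 0 := fun a => by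
    rw [mn_pw]
    exact Finset.prod_ne_zero_iff.2 fun s _ => pow_ne_zero _ (hx s)
  have hme : ∀ a, mn x (pw e (dg a)) = ∏ s, lam s ^ dg a s := fun a => by
    rw [mn_pw]
    refine Finset.prod_congr rfl fun s _ => ?_
    rw [hxx, sc, he, he1, mul_one]
  have hme0 : ∀ a, (∏ s, lam s ^ dg a s) ≠ 0 := fun a =>
    Finset.prod_ne_zero_iff.2 fun s _ => pow_ne_zero _ (hl s)
  have hZ0 : (∏ a, mn x (pw c (dg a))) ≠ 0 := Finset.prod_ne_zero_iff.2 fun a _ => hmc a
  have hY0 : (∏ a, ∏ s, lam s ^ dg a s) ≠ 0 := Finset.prod_ne_zero_iff.2 fun a _ => hme0 a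
  obtain ⟨Φ, hΦ⟩ : ∃ Φ, Φ = (∏ j : b, lz Z β lam (τ j)) * (∏ i : b, fac lam i.1) := ⟨_, rfl⟩
  have hΦ0 : Φ ≠ 0 := by
    rw [hΦ]
    exact mul_ne_zero (Finset.prod_ne_zero_iff.2 fun j _ => lz_ne hl _)
      (Finset.prod_ne_zero_iff.2 fun i _ => fac_ne hl _)
  have h3 : Φ * d1 = d0 / (∏ a, mn x (pw c (dg a))) * ∏ a, ∏ s, lam s ^ dg a s := by
    rw [hΦ, mul_assoc, h1, Finset.prod_div_distrib]
    simp only [hme]
    field_simp
  have hq0 : d0 / (∏ a, mn x (pw c (dg a))) ≠ 0 := div_ne_zero hdet hZ0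
  have hd10 : d1 ≠ 0 := by
    intro h0
    rw [h0, mul_zero] at h3
    exact mul_ne_zero hq0 hY0 h3.symm
  refine ⟨x', e, hx', he, by rw [← hd1]; exact hd10, ?_⟩
  rw [← hd0, ← hd1]
  have h5 := congrArg P.ord h3
  rw [P.ord_mul hΦ0 hd10, P.ord_mul hq0 hY0] at h5
  have h6 : P.ord (∏ a, ∏ s, lam s ^ dg a s) = ∑ s, ((∑ a, dg a s : ℕ) : ℤ) * po β P x s := by
    rw [Pool.Agent.TH145.GC.ord_prod P _ _ fun a _ => hme0 a]
    have : ∀ a, P.ord (∏ s, lam s ^ dg a s) = ∑ s, (dg a s : ℤ) * po β P x s := fun a => by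
      rw [Pool.Agent.TH145.GC.ord_prod P _ _ fun s _ => pow_ne_zero _ (hl s)]
      exact Finset.sum_congr rfl fun s _ => by rw [P.ord_pow, hlo]
    rw [Finset.sum_congr rfl fun a _ => this a, Finset.sum_comm]
    refine Finset.sum_congr rfl fun s _ => ?_
    rw [← Finset.sum_mul]
    push_cast
    rfl
  have h7 : P.ord Φ = ∑ s, ((col β τ s + tw b s : ℕ) : ℤ) * po β P x s := by
    rw [hΦ, ord_factors P hl τ]
    exact Finset.sum_congr rfl fun s _ => by rw [hlo]
  rw [h6, h7] at h5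
  have h9 : ∑ s, ((col β τ s + tw b s : ℕ) - (∑ a, dg a s : ℕ)) * po β P x s =
      ∑ s, ((col β τ s + tw b s : ℕ) : ℤ) * po β P x s -
        ∑ s, ((∑ a, dg a s : ℕ) : ℤ) * po β P x s := by
    rw [← Finset.sum_sub_distrib]
    exact Finset.sum_congr rfl fun s _ => by ring
  rw [h9]
  linarith

open scoped Classical in
/-- The local inequality. -/
theorem local_est [Fintype A] (hc : ∀ s, β (c s) = s) (P : Place k K) {ε : ℤ} (hε : 0 ≤ ε)
    {x : σ → K} (hx : ∀ s, x (c s) ≠ 0)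
    (hD : ∀ f, Ge P 0 f → ∀ a, ∀ I ∈ St β c (dg a), Ge P (-ε) (D a I f))
    (hζ : ∀ q a, ∀ I ∈ St β c (dg a), Ge P (-ε) (ζ a I q))
    (hE : ∀ f, Ge P 0 f → ∀ ξ, Ge P (-ε) (E ξ f))
    {b : Finset (Ix σ S A X ⊕ A)} (hbp : ∀ s, Sum.inl (Sum.inl s) ∈ b) (hb : ∀ a, Sum.inr a ∈ b)
    (τ : b → σ ⊕ Z) (hspan : Submodule.span K (Set.range (wv β c dg D ζ E x)) ≤
        Submodule.span K (wv β c dg D ζ E x '' {o | Sum.inl o ∈ b}))
    (hdet : (mx β c dg D ζ E x (fun a => pw c (dg a)) b τ).det ≠ 0) :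
    ∑ s, ((col β τ s + tw b s : ℕ) - (∑ a, dg a s : ℕ)) * po β P x s - b.card * ε ≤
      P.ord ((mx β c dg D ζ E x (fun a => pw c (dg a)) b τ).det / ∏ a, mn x (pw c (dg a))) := by
  obtain ⟨x', e, hx', he, hd1, hid⟩ := local_id hc P hx hbp hb τ hspan hdet
  rw [← hid]
  have hpe : ∀ a, pw e (dg a) ∈ St β c (dg a) := fun a => pw_mem he _
  have h8 : -(b.card * ε) ≤ P.ord (mx β c dg D ζ E x' (fun a => pw e (dg a)) b τ).det := by
    have h9 := Pool.Agent.TH145.GC.ge_det P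
      (mx β c dg D ζ E x' (fun a => pw e (dg a)) b τ) (c := ε) fun i j =>
        ge_vv hc hε hx' (fun l a I hI => hD _ (hx' l) a I hI) hζ
          (fun ξ l => hE _ (hx' l) ξ) hpe _ _
    rw [Fintype.card_coe] at h9
    exact h9.resolve_left hd1
  linarith

/-- The projection to the coordinates of the point. -/
def pr (K : Type) [Field K] (σ Z : Type) : (σ ⊕ Z → K) →ₗ[K] (σ → K) where
  toFun z l := z (Sum.inl l)
  map_add' _ _ := rfl
  map_smul' _ _ := rfl

theorem full_pr (x : σ → K) : (Full β c dg D ζ E x).map (pr K σ Z) ≤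
    Pool.Agent.K6.H80.LV.Full β c dg D E x := by
  rw [Submodule.map_le_iff_le_comap, Full, Submodule.span_le]
  rintro _ (⟨o, rfl⟩ | ⟨a, I, hI, rfl⟩)
  · have h1 : pr K σ Z (wv β c dg D ζ E x o) = Pool.Agent.K6.H80.LV.wv β c dg D E x o :=
      funext fun l => vv_inl β c dg D ζ E x (fun _ => 0) (Sum.inl o) l
    change pr K σ Z (wv β c dg D ζ E x o) ∈ Pool.Agent.K6.H80.LV.Full β c dg D E x
    rw [h1]
    exact Pool.Agent.K6.H80.LV.wv_mem_full x o
  · exact Pool.Agent.K6.H80.LV.Ev_mem_full (x := x) hI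

/-- The dimension with the additional coordinates. -/
theorem rank_add [Fintype Z] (x : σ → K) : Module.finrank K (Full β c dg D ζ E x) ≤
    Module.finrank K (Pool.Agent.K6.H80.LV.Full β c dg D E x) + Fintype.card Z := by
  classical
  have h0 : ∀ z : Full β c dg D ζ E x, pr K σ Z z.1 ∈ Pool.Agent.K6.H80.LV.Full β c dg D E x :=
    fun z => full_pr x ⟨z.1, z.2, rfl⟩
  obtain ⟨ρ, hρ⟩ : ∃ ρ : Full β c dg D ζ E x →ₗ[K]
      (Pool.Agent.K6.H80.LV.Full β c dg D E x) × (Z → K),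
      ∀ z, ρ z = (⟨pr K σ Z z.1, h0 z⟩, fun q => z.1 (Sum.inr q)) :=
    ⟨{ toFun := fun z => (⟨pr K σ Z z.1, h0 z⟩, fun q => z.1 (Sum.inr q))
       map_add' := fun _ _ => rfl
       map_smul' := fun _ _ => rfl }, fun _ => rfl⟩
  have h1 : Function.Injective ρ := by
    intro y z h
    rw [hρ, hρ] at h
    have h2 := congrArg (fun p => p.1.1) h
    have h3 := congrArg (fun p => p.2) h
    apply Subtype.ext
    funext l
    rcases l with l | q
    · exact congrFun h2 l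
    · exact congrFun h3 q
  have h2 := LinearMap.finrank_le_finrank_of_injective h1
  rwa [Module.finrank_prod, Module.finrank_pi] at h2

open scoped Classical in
/-- The number of the columns of a block. -/
theorem col_le {x : σ → K} {I : A → σ →₀ ℕ} (hI : ∀ a, I a ∈ St β c (dg a))
    {b : Finset (Ix σ S A X ⊕ A)} (τ : b → σ ⊕ Z) (hdet : (mx β c dg D ζ E x I b τ).det ≠ 0) (s : S)
    {N : ℕ} (hN : Module.finrank K
      ((Pool.Agent.K6.H80.LV.Full β c dg D E x).map (bp K β s)) ≤ N) :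
    col β τ s ≤ N := by
  obtain ⟨M, hM⟩ : ∃ M : Matrix b {j : b // Inb β s (τ j)} K,
    M = Matrix.of fun i j => mx β c dg D ζ E x I b τ i j.1 := ⟨_, rfl⟩
  have h1 : LinearIndependent K (mx β c dg D ζ E x I b τ).col :=
    Matrix.linearIndependent_cols_of_det_ne_zero hdet
  have h2 : LinearIndependent K M.transpose.row := by
    have h3 := h1.comp (fun j : {j : b // Inb β s (τ j)} => j.1) Subtype.val_injective
    convert h3 using 1
    rw [hM]
    rfl
  have h3 := h2.rank_matrix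
  rw [Matrix.rank_transpose, Matrix.rank_eq_finrank_span_row, Fintype.card_subtype] at h3
  have h4 : col β τ s = (Finset.univ.filter fun j : b => Inb β s (τ j)).card := rfl
  rw [h4, ← h3]
  refine le_trans ?_ hN
  have hl : ∀ j : {j : b // Inb β s (τ j)}, ∃ l, τ j.1 = Sum.inl l ∧ β l = s := by
    rintro ⟨j, hj⟩
    rcases h : τ j with l | q
    · rw [h] at hj
      exact ⟨l, rfl, hj⟩
    · rw [h] at hj
      exact hj.elim
  choose l hl hls using hl
  obtain ⟨ρ, hρ⟩ : ∃ ρ : (σ → K) →ₗ[K] ({j : b // Inb β s (τ j)} → K), ∀ z j, ρ z j = z (l j) :=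
    ⟨{ toFun := fun z j => z (l j)
       map_add' := fun _ _ => rfl
       map_smul' := fun _ _ => rfl }, fun _ _ => rfl⟩
  refine le_trans (Submodule.finrank_mono (t :=
    ((Pool.Agent.K6.H80.LV.Full β c dg D E x).map (bp K β s)).map ρ) ?_)
    (Submodule.finrank_map_le ρ _)
  rw [Submodule.span_le]
  rintro _ ⟨i, rfl⟩
  refine ⟨bp K β s (Pool.Agent.K6.H80.LV.vv β c dg D E x I i),
    ⟨_, Pool.Agent.K6.H80.LV.vv_mem_full x hI i, rfl⟩, ?_⟩
  funext j
  rw [hρ]
  change px β (Pool.Agent.K6.H80.LV.vv β c dg D E x I i) s (l j) = M i j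
  rw [px_apply, if_pos (hls j), hM, ← vv_inl β c dg D ζ E x I i (l j), ← hl]
  rfl

section

variable [IsAlgClosed k] [CharZero k] [IsFF k K]

/-- The height inequality. -/
theorem ineq [Fintype A] [Fintype Z] (hc : ∀ s, β (c s) = s) {x : σ → K} (hx : ∀ s, x (c s) = 1)
    {m : ℕ} {μ : S → ℕ} {D : A → (σ →₀ ℕ) → Derivation ℤ K K} {ζ : A → (σ →₀ ℕ) → Z → K}
    (hd : ∀ s, μ s + (m + Fintype.card Z) + 2 ≤ ∑ a, (dg a s + 1))
    (hrk : Module.finrank K (Pool.Agent.K6.H80.LV.Full β c dg D (fun e : Empty => e.elim) x) ≤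
      m + Fintype.card S)
    (hrkb : ∀ s, Module.finrank K
      ((Pool.Agent.K6.H80.LV.Full β c dg D (fun e : Empty => e.elim) x).map (bp K β s)) ≤ μ s + 1)
    {φ : A → σ ⊕ Z → K} (hφ : Fn β c dg D ζ (fun e : Empty => e.elim) x φ)
    {e : Place k K → ℤ} (he0 : ∀ P, 0 ≤ e P) (hef : {P | e P ≠ 0}.Finite)
    (hloss : ∀ P f, Ge P 0 f → ∀ a, ∀ I ∈ St β c (dg a), Ge P (-e P) (D a I f))
    (hζ : ∀ P q a, ∀ I ∈ St β c (dg a), Ge P (-e P) (ζ a I q)) (l : σ) :
    hgt k (x l) ≤ ∑ᶠ P, (m + Fintype.card Z + Fintype.card S : ℕ) * e P := by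
  classical
  have hx0 : ∀ s, x (c s) ≠ 0 := fun s => by rw [hx]; exact one_ne_zero
  have hs0 : LinearIndepOn K (vv β c dg D ζ (fun e : Empty => e.elim) x fun a => pw c (dg a))
      (Vert σ S A Empty) := by
    have h1 : Vert σ S A Empty = Set.range fun s => Sum.inl (Sum.inl s) := by
      ext i
      constructor
      · rintro (⟨s, rfl⟩ | ⟨ξ, -⟩)
        · exact ⟨s, rfl⟩
        · exact ξ.elim
      · rintro ⟨s, rfl⟩
        exact Or.inl ⟨s, rfl⟩
    rw [h1, ← Set.image_univ]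
    refine LinearIndepOn.image_of_comp _ _ ?_
    rw [linearIndepOn_univ_iff, Fintype.linearIndependent_iff]
    intro r hr s
    have h2 := congrFun hr (Sum.inl (c s))
    simp only [Finset.sum_apply, Function.comp_apply, vv, wv, ps, Pi.smul_apply, smul_eq_mul,
      Pi.zero_apply, Sum.elim_inl] at h2
    rw [sum_px, hc, hx, mul_one] at h2
    exact h2
  obtain ⟨b, hbV, hb, hbi, hspan, hcard⟩ := exists_rows hc hx0 hφ hs0
  obtain ⟨τ, hτ⟩ := Pool.Agent.TH145.GC.exists_minor _ hbi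
  have hdet : (mx β c dg D ζ (fun e : Empty => e.elim) x (fun a => pw c (dg a)) b τ).det ≠ 0 := by
    unfold mx
    convert hτ
  have hbc : b.card ≤ m + Fintype.card Z + Fintype.card S := by
    rw [← hcard]
    have := rank_add (β := β) (c := c) (dg := dg) (D := D) (ζ := ζ)
      (E := fun e : Empty => e.elim) x
    omega
  have hcol := fun s => col_le (fun a => pw_mem hc _) τ hdet s (hrkb s)
  refine (hgt_le_bht (k := k) (β := β) (s := β l) (hx (β l)) (hc _) rfl).trans ?_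
  refine sum_blocks hx hc (α := fun s => (∑ a, dg a s : ℕ) - (col β τ s + tw b s : ℕ))
    (fun s => ?_) ?_ (fun P => ?_) (β l) (Θ := (mx β c dg D ζ (fun e : Empty => e.elim) x
      (fun a => pw c (dg a)) b τ).det / ∏ a, mn x (pw c (dg a)))
  · have h1 := num hbV hb s
    have h1' := hcol s
    have h2 := hd s
    rw [Finset.sum_add_distrib, Finset.sum_const, Finset.card_univ, smul_eq_mul, mul_one] at h2
    have h3 : Fintype.card Empty = 0 := rfl
    have h4 : (col β τ s + tw b s) + 1 ≤ ∑ a, dg a s := by omega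
    have h5 : (((col β τ s + tw b s) + 1 : ℕ) : ℤ) ≤ (∑ a, dg a s : ℕ) := by exact_mod_cast h4
    push_cast at h5 ⊢
    linarith
  · refine hef.subset fun P hP h0 => hP ?_
    rw [h0, mul_zero]
  · have h1 := local_est hc P (he0 P) hx0 (hloss P) (hζ P) (fun f _ ξ => ξ.elim)
      (fun s => hbV _ (Or.inl ⟨s, rfl⟩)) hb τ hspan hdet
    refine le_trans ?_ h1
    have h2 : (b.card : ℤ) * e P ≤ (m + Fintype.card Z + Fintype.card S : ℕ) * e P :=
      mul_le_mul_of_nonneg_right (by exact_mod_cast hbc) (he0 P)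
    have h3 : ∑ s, (-(((∑ a, dg a s : ℕ) : ℤ) - (col β τ s + tw b s : ℕ))) * po β P x s =
        ∑ s, ((col β τ s + tw b s : ℕ) - (∑ a, dg a s : ℕ)) * po β P x s :=
      Finset.sum_congr rfl fun s _ => by ring
    rw [h3]
    linarith

end

end Pool.Agent.K6.H80.CD
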