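import Pool.Agent.K6.H80.CD.Setup

/-!
Members of linear systems such that all but some of the ratios of the coefficients are generic.
-/

set_option autoImplicit false
set_option linter.unusedSectionVars false

open MvPolynomial Pool.Agent.TH145.GH
open Pool.Agent.TH145.GC (exists_big)

namespace Pool.Agent.K6.H80.CD

open Pool.Agent.K6.H80.LV (mn sM St pw up px px_apply sum_px OK Ti Ix sc fac mn_step sM_zero pw_mem
  mn_pw up_le Vert sM_up_mem det_blk bp num DimB nv map_mn finite_st finite_ix mn_mk der_coeff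
  exists_fn alg_descend exists_setup indep_shift)

variable {σ S A Z : Type} [Fintype σ] [Fintype S] [Fintype A] [Fintype Z] {β : σ → S}
  {c : S → σ} {dg : A → S → ℕ}

open scoped Classical in
/-- On the variety `V`, the monomial `I` is a linear combination of the `P j` and of the `R q` with
index `a`. -/
def Sys {k' : Type} [Field k'] {J : Type} [Fintype J] (β : σ → S) (V : Set (MvPolynomial σ k'))
    (P : J → MvPolynomial σ k') (za : Z → A) (R : Z → MvPolynomial σ k') (a : A)
    (I : σ →₀ ℕ) : Prop :=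
  ∃ (e : J → k') (e' : Z → k'), ∀ (Ω : Type) [Field Ω] [Algebra k' Ω] (x : σ → Ω),
    (∀ s, ∃ l, β l = s ∧ x l = 1) → (∀ f ∈ V, aeval x f = 0) →
      aeval x (monomial I (1 : k')) = ∑ j, algebraMap k' Ω (e j) * aeval x (P j) +
        ∑ q, if za q = a then algebraMap k' Ω (e' q) * aeval x (R q) else 0

open scoped Classical in
theorem eval_F {k' Ω J : Type} [Field k'] [Field Ω] [Algebra k' Ω] [Fintype J]
    (P : J → MvPolynomial σ k') (cf : J → Ω) (za : Z → A) (R : Z → MvPolynomial σ k') (r : Z → Ω)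
    (a : A) {F : MvPolynomial σ Ω}
    (hF : F = ∑ j, C (cf j) * map (algebraMap k' Ω) (P j) +
      ∑ q, if za q = a then C (r q) * map (algebraMap k' Ω) (R q) else 0) (x : σ → Ω) :
    eval x F = ∑ j, cf j * aeval x (P j) +
      ∑ q, if za q = a then r q * aeval x (R q) else 0 := by
  rw [hF, map_add, map_sum, map_sum]
  congr 1
  · refine Finset.sum_congr rfl fun j _ => ?_
    rw [map_mul, eval_C, eval_map]
    rfl
  · refine Finset.sum_congr rfl fun q _ => ?_
    split_ifs
    · rw [map_mul, eval_C, eval_map]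
      rfl
    · rw [map_zero]

open scoped Classical in
/-- Finiteness of the points at which the members of the linear systems vanish. -/
theorem sys_fin {k0 K : Type} [Field k0] [Field K] [Algebra k0 K] [IsAlgClosed K]
    [CharZero K] [IsAlgClosed k0] {m : ℕ} {μ : S → ℕ} (hc : ∀ s, β (c s) = s)
    (hd : ∀ s, μ s + (m + Fintype.card Z) + 2 ≤ ∑ a, (dg a s + 1))
    (V : Set (MvPolynomial σ k0)) (hV : DimB k0 β V m μ)
    {J : A → Type} [∀ a, Fintype (J a)] (P : ∀ a, J a → MvPolynomial σ k0)
    (za : Z → A) (R : Z → MvPolynomial σ k0) (r : Z → K)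
    (hP : ∀ a, ∀ I ∈ St β c (dg a), Sys β V (P a) za R a I)
    (cf : ∀ a, J a → K) (j0 : ∀ a, J a) (h0 : ∀ a, cf a (j0 a) ≠ 0)
    (hind : AlgebraicIndependent k0 fun p : (Σ a, {j : J a // j ≠ j0 a}) =>
      cf p.1 p.2.1 / cf p.1 (j0 p.1))
    {F : A → MvPolynomial σ K}
    (hF : ∀ a, F a = ∑ j, C (cf a j) * map (algebraMap k0 K) (P a j) +
      ∑ q, if za q = a then C (r q) * map (algebraMap k0 K) (R q) else 0)
    (T : Finset K) :
    {x : σ → K | (∀ j, x j ∈ IntermediateField.adjoin k0 (T : Set K)) ∧ (∀ s, x (c s) = 1) ∧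
      (∀ f ∈ V, aeval x f = 0) ∧ ∀ a, eval x (F a) = 0}.Finite := by
  obtain ⟨K1, _, _, hK1, hc1, τ, hτ⟩ := exists_big K A
  let _ : Algebra k0 K1 := ((algebraMap K K1).comp (algebraMap k0 K)).toAlgebra
  have hst1 : IsScalarTower k0 K K1 := IsScalarTower.of_algebraMap_eq fun _ => rfl
  have hu := Pool.Agent.TH145.GK.indep_scale (k0 := k0) (K' := K1) cf j0 h0 hind hτ
  have hfinSt : ∀ a, Finite (St β c (dg a)) := fun a => finite_st β c (dg a)
  have hfinSt' : ∀ a, Fintype (St β c (dg a)) := fun a => Fintype.ofFinite _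
  obtain ⟨K2, _, _, hK2, hc2, t, ht⟩ := exists_big K1 (Σ a, St β c (dg a))
  let _ : Algebra k0 K2 := ((algebraMap K1 K2).comp (algebraMap k0 K1)).toAlgebra
  have hst2 : IsScalarTower k0 K1 K2 := IsScalarTower.of_algebraMap_eq fun _ => rfl
  choose e e' he using fun (a : A) (I : St β c (dg a)) => hP a I I.2
  obtain ⟨u, hud⟩ : ∃ u : ∀ a, J a → K1, ∀ a j, u a j =
      τ a / algebraMap K K1 (cf a (j0 a)) * algebraMap K K1 (cf a j) := ⟨_, fun _ _ => rfl⟩
  obtain ⟨v, hvd⟩ : ∃ v : Z → K1, ∀ q, v q =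
      τ (za q) / algebraMap K K1 (cf (za q) (j0 (za q))) * algebraMap K K1 (r q) :=
    ⟨_, fun _ => rfl⟩
  have hu' : AlgebraicIndependent k0 fun p : (Σ a, J a) => u p.1 p.2 := by
    have h1 : (fun p : (Σ a, J a) => u p.1 p.2) = fun p : (Σ a, J a) =>
        τ p.1 / algebraMap K K1 (cf p.1 (j0 p.1)) * algebraMap K K1 (cf p.1 p.2) :=
      funext fun p => hud p.1 p.2
    rw [h1]
    exact hu
  have hind' := indep_shift (k0 := k0) (J := J) (I := fun a => St β c (dg a)) (u := u) hu'
    (t := t) ht e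
  obtain ⟨cf', hcf'⟩ : ∃ cf' : ∀ a, J a ⊕ St β c (dg a) → K2, ∀ a z, cf' a z =
      Sum.elim (fun j => algebraMap K1 K2 (u a j) -
        ∑ i, t ⟨a, i⟩ * algebraMap k0 K2 (e a i j)) (fun i => t ⟨a, i⟩) z :=
    ⟨_, fun _ _ => rfl⟩
  obtain ⟨r', hr'⟩ : ∃ r' : Z → K2, ∀ q, r' q = algebraMap K1 K2 (v q) -
    ∑ i, t ⟨za q, i⟩ * algebraMap k0 K2 (e' (za q) i q) := ⟨_, fun _ => rfl⟩
  obtain ⟨P', hP'⟩ : ∃ P' : ∀ a, J a ⊕ St β c (dg a) → MvPolynomial σ k0, ∀ a z, P' a z =
      Sum.elim (P a) (fun I : St β c (dg a) => monomial I.1 1) z := ⟨_, fun _ _ => rfl⟩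
  obtain ⟨G, hG⟩ : ∃ G : A → MvPolynomial σ K2, ∀ a, G a =
    ∑ j, MvPolynomial.C (cf' a j) * map (algebraMap k0 K2) (P' a j) +
      ∑ q, (if za q = a then MvPolynomial.C (r' q) * map (algebraMap k0 K2) (R q) else 0) :=
    ⟨_, fun _ => rfl⟩
  have h5 : AlgebraicIndependent k0 (fun p : (Σ a, J a ⊕ St β c (dg a)) => cf' p.1 p.2) := by
    simp only [hcf']
    exact hind'
  obtain ⟨φ, hφ⟩ : ∃ φ : K →+* K2, ∀ z, φ z = algebraMap K1 K2 (algebraMap K K1 z) :=
    ⟨(algebraMap K1 K2).comp (algebraMap K K1), fun _ => rfl⟩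
  obtain ⟨T', hT'⟩ : ∃ T' : Finset K2, T' = T.image φ := ⟨_, rfl⟩
  have h3 := fin_points (k0 := k0) hc hd V hV P' (fun a I hI => ⟨Sum.inr ⟨I, hI⟩, by
    rw [hP']; rfl⟩) za R r' hG h5 T'
  have hφk : φ.comp (algebraMap k0 K) = algebraMap k0 K2 := by
    ext r
    rw [RingHom.comp_apply, hφ]
    rfl
  have hadj : ∀ z ∈ IntermediateField.adjoin k0 (T : Set K),
      φ z ∈ IntermediateField.adjoin k0 (T' : Set K2) := by
    intro z hz
    have h4 : z ∈ Subfield.closure (Set.range (algebraMap k0 K) ∪ (T : Set K)) := by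
      rw [← IntermediateField.adjoin_toSubfield]
      exact hz
    have h6 : Subfield.closure (Set.range (algebraMap k0 K) ∪ (T : Set K)) ≤
        (IntermediateField.adjoin k0 (T' : Set K2)).toSubfield.comap φ := by
      rw [Subfield.closure_le]
      rintro w (⟨r, rfl⟩ | hw)
      · change φ (algebraMap k0 K r) ∈ IntermediateField.adjoin k0 (T' : Set K2)
        rw [← RingHom.comp_apply, hφk]
        exact IntermediateField.algebraMap_mem _ _
      · refine IntermediateField.subset_adjoin _ _ ?_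
        rw [hT', Finset.coe_image]
        exact ⟨w, hw, rfl⟩
    exact h6 h4
  have hev : ∀ (f : MvPolynomial σ k0) (x : σ → K), aeval (fun j => φ (x j)) f =
      φ (aeval x f) := by
    intro f x
    have h6 := hom_eval₂ f (algebraMap k0 K) φ x
    rw [hφk] at h6
    exact h6.symm
  refine Set.Finite.of_finite_image (f := fun x j => φ (x j)) (h3.subset ?_) ?_
  · rintro _ ⟨x, ⟨hx, hxl, hxV, hxF⟩, rfl⟩
    have hxl' : ∀ s, (fun j => φ (x j)) (c s) = 1 := fun s => by
      dsimp only
      rw [hxl, map_one]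
    have hxV' : ∀ f ∈ V, aeval (fun j => φ (x j)) f = 0 := fun f hf => by
      rw [hev, hxV f hf, map_zero]
    refine ⟨fun j => hadj _ (hx j), hxl', hxV', fun a => ?_⟩
    have h6 : eval (fun j => φ (x j)) (G a) = 0 := by
      rw [eval_F (P' a) (cf' a) za R r' a (hG a), Fintype.sum_sum_type]
      simp only [hcf', hP', Sum.elim_inl, Sum.elim_inr]
      have h7 : ∀ i : St β c (dg a), aeval (fun j => φ (x j)) (monomial i.1 (1 : k0)) =
          ∑ j, algebraMap k0 K2 (e a i j) * aeval (fun j => φ (x j)) (P a j) +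
          ∑ q, (if za q = a then algebraMap k0 K2 (e' a i q) * aeval (fun j => φ (x j)) (R q)
            else 0) := fun i =>
        he a i K2 _ (fun s => ⟨c s, hc s, hxl' s⟩) hxV'
      have h8 : ∑ j, algebraMap K1 K2 (u a j) * aeval (fun j => φ (x j)) (P a j) +
          ∑ q, (if za q = a then algebraMap K1 K2 (v q) * aeval (fun j => φ (x j)) (R q)
            else 0) = 0 := by
        have h9 := hxF a
        rw [eval_F (P a) (cf a) za R r a (hF a)] at h9
        have h10 := congrArg φ h9
        rw [map_zero, map_add, map_sum, map_sum] at h10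
        have h11 : ∀ j, algebraMap K1 K2 (u a j) * aeval (fun j => φ (x j)) (P a j) =
            algebraMap K1 K2 (τ a / algebraMap K K1 (cf a (j0 a))) *
              φ (cf a j * aeval x (P a j)) := by
          intro j
          rw [hud, map_mul (algebraMap K1 K2), map_mul φ, hev, ← hφ, mul_assoc]
        have h12 : ∀ q, (if za q = a then algebraMap K1 K2 (v q) *
            aeval (fun j => φ (x j)) (R q) else 0) =
            algebraMap K1 K2 (τ a / algebraMap K K1 (cf a (j0 a))) *
              φ (if za q = a then r q * aeval x (R q) else 0) := by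
          intro q
          split_ifs with hq
          · rw [hvd, hq, map_mul (algebraMap K1 K2), map_mul φ, hev, ← hφ, mul_assoc]
          · rw [map_zero, mul_zero]
        rw [Finset.sum_congr rfl fun j _ => h11 j, Finset.sum_congr rfl fun q _ => h12 q,
          ← Finset.mul_sum, ← Finset.mul_sum, ← mul_add, h10, mul_zero]
      have h13 : ∀ q, (if za q = a then r' q * aeval (fun j => φ (x j)) (R q) else 0) =
          (if za q = a then algebraMap K1 K2 (v q) * aeval (fun j => φ (x j)) (R q) else 0) -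
          ∑ i : St β c (dg a), t ⟨a, i⟩ * (if za q = a then algebraMap k0 K2 (e' a i q) *
            aeval (fun j => φ (x j)) (R q) else 0) := by
        intro q
        split_ifs with hq
        · subst hq
          rw [hr', sub_mul, Finset.sum_mul]
          congr 1
          exact Finset.sum_congr rfl fun i _ => by ring
        · simp only [mul_zero, Finset.sum_const_zero, sub_zero]
      simp only [h7, h13, sub_mul, Finset.sum_sub_distrib, Finset.sum_mul, mul_add,
        Finset.sum_add_distrib]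
      have h14 : ∑ j, ∑ i : St β c (dg a), t ⟨a, i⟩ * algebraMap k0 K2 (e a i j) *
          aeval (fun j => φ (x j)) (P a j) = ∑ i : St β c (dg a), t ⟨a, i⟩ *
            ∑ j, algebraMap k0 K2 (e a i j) * aeval (fun j => φ (x j)) (P a j) := by
        rw [Finset.sum_comm]
        refine Finset.sum_congr rfl fun i _ => ?_
        rw [Finset.mul_sum]
        exact Finset.sum_congr rfl fun j _ => by ring
      have h15 : ∑ q, ∑ i : St β c (dg a), t ⟨a, i⟩ * (if za q = a then
          algebraMap k0 K2 (e' a i q) * aeval (fun j => φ (x j)) (R q) else 0) =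
          ∑ i : St β c (dg a), t ⟨a, i⟩ * ∑ q, (if za q = a then
          algebraMap k0 K2 (e' a i q) * aeval (fun j => φ (x j)) (R q) else 0) := by
        rw [Finset.sum_comm]
        refine Finset.sum_congr rfl fun i _ => ?_
        rw [Finset.mul_sum]
      rw [h14, h15]
      linear_combination h8
    rw [h6]
    exact isAlgebraic_zero
  · intro x _ x' _ hxx
    funext j
    exact φ.injective (congrFun hxx j)

end Pool.Agent.K6.H80.CD
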