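import Pool.Agent.K6.H80.LV.Choice

/-!
Vector fields with additional coordinates: the coefficients that are not free.
-/

set_option autoImplicit false
set_option linter.unusedSectionVars false

open MvPolynomial FF Pool.Agent.W603.LV Pool.Agent.W603.PV

namespace Pool.Agent.K6.H80.CD

open Pool.Agent.K6.H80.LV (mn sM St pw up px px_apply sum_px OK Ti Ix sc fac mn_step sM_zero pw_mem
  mn_pw up_le Vert sM_up_mem)

variable {K : Type} [Field K] {σ S A X Z : Type} [Fintype σ] [Fintype S]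

/-- The vectors of the derivatives, with the additional coordinates. -/
def Ev (D : A → (σ →₀ ℕ) → Derivation ℤ K K) (ζ : A → (σ →₀ ℕ) → Z → K) (x : σ → K) (a : A)
    (I : σ →₀ ℕ) : σ ⊕ Z → K := Sum.elim (fun l => D a I (x l)) (ζ a I)

/-- The position vectors. -/
noncomputable def ps (Z : Type) (β : σ → S) (x : σ → K) (s : S) : σ ⊕ Z → K :=
  Sum.elim (px β x s) 0

/-- The vector given by a derivation. -/
def ev (Z : Type) (E : Derivation ℤ K K) (x : σ → K) : σ ⊕ Z → K :=
  Sum.elim (fun l => E (x l)) 0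

open scoped Classical in
/-- The tangent vector fields. -/
noncomputable def tv (β : σ → S) (c : S → σ) (dg : A → S → ℕ)
    (D : A → (σ →₀ ℕ) → Derivation ℤ K K) (ζ : A → (σ →₀ ℕ) → Z → K) (x : σ → K)
    (t : Ti σ S A) : σ ⊕ Z → K :=
  if OK β dg t then
    x (c t.2.1) • Ev D ζ x t.1 (sM c (dg t.1) t.2.2.1 (up t.2.2.2 t.2.1)) -
      x (t.2.2.1 t.2.1) • Ev D ζ x t.1 (sM c (dg t.1) t.2.2.1 t.2.2.2) else 0

/-- The position vectors, the vertical vector fields and the tangent vector fields. -/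
noncomputable def wv (β : σ → S) (c : S → σ) (dg : A → S → ℕ)
    (D : A → (σ →₀ ℕ) → Derivation ℤ K K) (ζ : A → (σ →₀ ℕ) → Z → K) (E : X → Derivation ℤ K K)
    (x : σ → K) : Ix σ S A X → σ ⊕ Z → K
  | Sum.inl s => ps Z β x s
  | Sum.inr (Sum.inl ξ) => ev Z (E ξ) x
  | Sum.inr (Sum.inr t) => tv β c dg D ζ x t

/-- The rows: the vector fields and the derivatives with the exponents `I`. -/
noncomputable def vv (β : σ → S) (c : S → σ) (dg : A → S → ℕ)
    (D : A → (σ →₀ ℕ) → Derivation ℤ K K) (ζ : A → (σ →₀ ℕ) → Z → K) (E : X → Derivation ℤ K K)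
    (x : σ → K) (I : A → σ →₀ ℕ) : Ix σ S A X ⊕ A → σ ⊕ Z → K
  | Sum.inl o => wv β c dg D ζ E x o
  | Sum.inr a => Ev D ζ x a (I a)

/-- The factors of the columns. -/
def lz (Z : Type) (β : σ → S) (lam : S → K) : σ ⊕ Z → K := Sum.elim (fun l => lam (β l)) 1

theorem vv_inl (β : σ → S) (c : S → σ) (dg : A → S → ℕ)
    (D : A → (σ →₀ ℕ) → Derivation ℤ K K) (ζ : A → (σ →₀ ℕ) → Z → K) (E : X → Derivation ℤ K K)
    (x : σ → K) (I : A → σ →₀ ℕ) (i : Ix σ S A X ⊕ A) (l : σ) :
    vv β c dg D ζ E x I i (Sum.inl l) = Pool.Agent.K6.H80.LV.vv β c dg D E x I i l := by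
  rcases i with (s | ξ | t) | a
  · rfl
  · rfl
  · simp only [vv, wv, tv, Pool.Agent.K6.H80.LV.vv, Pool.Agent.K6.H80.LV.wv,
      Pool.Agent.K6.H80.LV.tv]
    split_ifs <;> rfl
  · rfl

theorem vv_inr (β : σ → S) {c : S → σ} (hc : ∀ s, β (c s) = s) (dg : A → S → ℕ)
    (D : A → (σ →₀ ℕ) → Derivation ℤ K K) (ζ : A → (σ →₀ ℕ) → Z → K) (E : X → Derivation ℤ K K)
    (x : σ → K) (lam : S → K) (I : A → σ →₀ ℕ) (i : Ix σ S A X ⊕ A) (q : Z) :
    vv β c dg D ζ E (sc β lam x) I i (Sum.inr q) = fac lam i * vv β c dg D ζ E x I i (Sum.inr q) := by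
  rcases i with (s | ξ | t) | a
  · simp only [vv, wv, ps, fac, Sum.elim_inr, Pi.zero_apply, mul_zero]
  · simp only [vv, wv, ev, fac, Sum.elim_inr, Pi.zero_apply, mul_zero]
  · simp only [vv, wv, tv, fac]
    split_ifs with ht
    · simp only [Ev, Pi.sub_apply, Pi.smul_apply, Sum.elim_inr, smul_eq_mul]
      have h1 : sc β lam x (c t.2.1) = lam t.2.1 * x (c t.2.1) := by
        rw [sc, hc]
      have h2 : sc β lam x (t.2.2.1 t.2.1) = lam t.2.1 * x (t.2.2.1 t.2.1) := by
        rw [sc, ht.1]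
      rw [h1, h2]
      ring
    · simp only [Pi.zero_apply, mul_zero]
  · simp only [vv, Ev, fac, Sum.elim_inr, one_mul]

theorem vv_scale {β : σ → S} {c : S → σ} (hc : ∀ s, β (c s) = s) (dg : A → S → ℕ)
    (D : A → (σ →₀ ℕ) → Derivation ℤ K K) (ζ : A → (σ →₀ ℕ) → Z → K) (E : X → Derivation ℤ K K)
    (x : σ → K) {lam : S → K} (hl : ∀ s, lam s ≠ 0) (I : A → σ →₀ ℕ) :
    ∃ κ : Ix σ S A X ⊕ A → S → K, (∀ s s', κ (Sum.inl (Sum.inl s)) s' = 0) ∧
      ∀ i l, vv β c dg D ζ E (sc β lam x) I i l =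
        lz Z β lam l * (fac lam i * (vv β c dg D ζ E x I i l + ∑ s, κ i s * ps Z β x s l)) := by
  obtain ⟨κ, h1, h2⟩ := Pool.Agent.K6.H80.LV.vv_scale hc dg D E x hl I
  refine ⟨κ, h1, ?_⟩
  rintro i (l | q)
  · rw [vv_inl, vv_inl, h2]
    rfl
  · rw [vv_inr β hc]
    simp only [lz, ps, Sum.elim_inr, Pi.one_apply, Pi.zero_apply, mul_zero, Finset.sum_const_zero,
      add_zero, one_mul]

/-- The derivatives, modulo the tangent vectors. -/
theorem Ev_mod {β : σ → S} {c : S → σ} (dg : A → S → ℕ)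
    (D : A → (σ →₀ ℕ) → Derivation ℤ K K) (ζ : A → (σ →₀ ℕ) → Z → K) (E : X → Derivation ℤ K K)
    {x : σ → K} (hx : ∀ s, x (c s) ≠ 0) (a : A) {J : σ →₀ ℕ} (hJ : J ∈ St β c (dg a)) :
    Ev D ζ x a J - (mn x J / mn x (pw c (dg a))) • Ev D ζ x a (pw c (dg a)) ∈
      Submodule.span K (Set.range (wv β c dg D ζ E x)) := by
  classical
  obtain ⟨W, hW⟩ : ∃ W, W = Submodule.span K (Set.range (wv β c dg D ζ E x)) := ⟨_, rfl⟩
  have hgW : ∀ o, wv β c dg D ζ E x o ∈ W := fun o => hW ▸ Submodule.subset_span ⟨o, rfl⟩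
  rw [← hW]
  have hc0 : mn x (pw c (dg a)) ≠ 0 := by
    rw [mn_pw]
    exact Finset.prod_ne_zero_iff.2 fun s _ => pow_ne_zero _ (hx s)
  obtain ⟨l, j, hl, hj, rfl⟩ := hJ
  -- induction on the sum of the exponents
  have key : ∀ (N : ℕ) (j : S → ℕ), (∀ s, j s ≤ dg a s) → ∑ s, j s = N →
      Ev D ζ x a (sM c (dg a) l j) - (mn x (sM c (dg a) l j) / mn x (pw c (dg a))) •
        Ev D ζ x a (pw c (dg a)) ∈ W := by
    intro N
    induction N with
    | zero =>
      intro j hj hN
      have h0 : j = 0 := by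
        funext s
        exact (Finset.sum_eq_zero_iff.1 hN) s (Finset.mem_univ s)
      rw [h0, sM_zero]
      change Ev D ζ x a (pw c (dg a)) - (mn x (pw c (dg a)) / _) • _ ∈ W
      rw [div_self hc0, one_smul, sub_self]
      exact zero_mem _
    | succ N ih =>
      intro j hj hN
      obtain ⟨s, hs⟩ : ∃ s, 0 < j s := by
        by_contra hcon
        push Not at hcon
        have : ∑ s, j s = 0 := Finset.sum_eq_zero fun s _ => by have := hcon s; omega
        omega
      obtain ⟨j', hj'⟩ : ∃ j' : S → ℕ, ∀ s', j' s' = if s' = s then j s - 1 else j s' :=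
        ⟨_, fun _ => rfl⟩
      have hjj : j = up j' s := by
        funext s'
        unfold up
        split_ifs with h
        · rw [h, hj', if_pos rfl]
          omega
        · rw [hj', if_neg h]
      have hj's : j' s = j s - 1 := by rw [hj', if_pos rfl]
      have hle : ∀ s', j' s' ≤ dg a s' := by
        intro s'
        rw [hj']
        split_ifs with h
        · subst h
          have := hj s'
          omega
        · exact hj s'
      have hlt : j' s < dg a s := by
        have := hj s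
        omega
      have hsum : ∑ s', j' s' = N := by
        have h1 : ∑ s', j s' = ∑ s', j' s' + 1 := by
          have h2 : ∑ s' ∈ Finset.univ.erase s, j s' = ∑ s' ∈ Finset.univ.erase s, j' s' :=
            Finset.sum_congr rfl fun s' hs' => by
              rw [hj', if_neg (Finset.ne_of_mem_erase hs')]
          rw [← Finset.add_sum_erase _ j (Finset.mem_univ s),
            ← Finset.add_sum_erase _ j' (Finset.mem_univ s), hj's, h2]
          omega
        omega
      have h1 := ih j' hle hsum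
      have h2 := hgW (Sum.inr (Sum.inr (a, s, l, j')))
      have hok : OK β dg (a, s, l, j') := ⟨hl, hle, hlt⟩
      simp only [wv, tv] at h2
      rw [if_pos hok] at h2
      rw [hjj]
      have h3 := mn_step x c (dg a) l j' s hlt
      have hcs := hx s
      have h5 : mn x (sM c (dg a) l (up j' s)) = x (l s) * mn x (sM c (dg a) l j') / x (c s) := by
        rw [← h3]
        field_simp
      have h4 : Ev D ζ x a (sM c (dg a) l (up j' s)) -
          (mn x (sM c (dg a) l (up j' s)) / mn x (pw c (dg a))) • Ev D ζ x a (pw c (dg a)) =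
          (x (c s))⁻¹ • (x (c s) • Ev D ζ x a (sM c (dg a) l (up j' s)) -
            x (l s) • Ev D ζ x a (sM c (dg a) l j')) +
          (x (l s) / x (c s)) • (Ev D ζ x a (sM c (dg a) l j') -
            (mn x (sM c (dg a) l j') / mn x (pw c (dg a))) • Ev D ζ x a (pw c (dg a))) := by
        rw [h5]
        funext p
        simp only [Pi.add_apply, Pi.sub_apply, Pi.smul_apply, smul_eq_mul]
        field_simp
        ring
      rw [h4]
      exact add_mem (Submodule.smul_mem _ _ h2) (Submodule.smul_mem _ _ h1)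
  exact key _ j hj rfl

end Pool.Agent.K6.H80.CD
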